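import Pool.Agent.FixRec.SysX
import Pool.Agent.MX.ElimMin

/-! The last sign change of a linear form with polynomial coefficients on a torsion coset. -/

set_option autoImplicit false

namespace Pool.Agent.FixRec

open Pool.Agent.MX Pool.Agent.RElim Complex

/-- PROOF: monotone factors. -/
theorem BdD_mono (D n : ℕ) {a a' : ℕ} (h : a ≤ a') : BdD D n a ≤ BdD D n a' := by
  unfold BdD
  refine Nat.mul_le_mul_left _ (Nat.pow_le_pow_left ?_ _)
  refine Nat.add_le_add_left (Nat.pow_le_pow_left ?_ _) _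
  exact Nat.add_le_add_left (Nat.mul_le_mul_left _ h) _

/-- The value is not negative beyond an explicit point.
PROOF (compare `elim_min` in `MX/ElimMin.lean`): suppose the value `f` at `t, x` is negative. Put `v none = t`,
`v (some none) = 1 / √(-2 D0 f)`, the other coordinates the real and imaginary parts of `x`: a zero of
the system `exists_systemX` (for `hfin.toFinset`). On all zeros `v none ≤ X` (`hX`, because the value is
negative there). `param_boundD` with the coordinate `none`: `|q| * t ≤ Bd`, and `1 ≤ |q| * Bd ^ (Dg - 1)`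
(`one_le_mul_NR`), so `t ≤ Bd ^ Dg`, `Bd = BdD (4 (p B + E + 2)) (2 p + 2) (mn (NR F) h)`; `BdD_mono`.
(`X < 0` is no problem: replace `X` by `max X 0`; `t ≤ 0` contradicts `ht`.) -/
theorem elim_sup (F : IntermediateField ℚ ℂ) [FiniteDimensional ℚ F]
    (hconj : ∀ z ∈ F, (starRingEnd ℂ) z ∈ F) (hI : I ∈ F) (p B E Dg Hc D0 : ℕ)
    (hDg : Module.finrank ℚ F ≤ Dg) (hD0 : 0 < D0)
    (hD0' : D0 ≤ 2 ^ Hc) (c : Fin p → ℕ → F)
    (hcI : ∀ i, ∀ e ≤ E, IsIntegral ℤ ((D0 : ℂ) * (c i e : ℂ)))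
    (hcb : ∀ i, ∀ e ≤ E, ∀ φ : F →ₐ[ℚ] ℂ, ‖φ (c i e)‖ ≤ 2 ^ Hc) (S : Set (Fin p → ℤ))
    (hS : ∀ g ∈ S, ∀ i, |g i| ≤ B) (ζ : (Fin p → ℤ) → F)
    (hζ : ∀ g ∈ S, ∃ n : ℕ, 0 < n ∧ ζ g ^ n = 1)
    (hX : ∃ X : ℝ, ∀ t : ℝ, X < t → ∀ x : Fin p → ℂ, (∀ i, ‖x i‖ = 1) →
      (∀ g ∈ S, ∏ i, x i ^ g i = (ζ g : ℂ)) →
      0 ≤ (∑ i, (∑ e ∈ Finset.range (E + 1), (c i e : ℂ) * (t : ℂ) ^ e) * x i).re)
    (t : ℝ) (ht : (BdD (4 * (p * B + E + 2)) (2 * p + 2)
      (2 ^ (20 * (p + 1) * (B + 1) + 4 * Hc + 2 * E)) : ℝ) ^ Dg < t)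
    (x : Fin p → ℂ) (hx : ∀ i, ‖x i‖ = 1) (hx2 : ∀ g ∈ S, ∏ i, x i ^ g i = (ζ g : ℂ)) :
    0 ≤ (∑ i, (∑ e ∈ Finset.range (E + 1), (c i e : ℂ) * (t : ℂ) ^ e) * x i).re := by
  classical
  by_contra hneg
  have hfin : S.Finite := by
    refine (Set.finite_Icc (fun _ : Fin p => -(B : ℤ)) (fun _ => (B : ℤ))).subset ?_
    intro g hg
    rw [Set.mem_Icc, Pi.le_def, Pi.le_def]
    exact ⟨fun i => (abs_le.mp (hS g hg i)).1, fun i => (abs_le.mp (hS g hg i)).2⟩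
  obtain ⟨h, hdeg, hmn, hnn, hzero⟩ := exists_systemX F hconj hI p B E Hc D0 hD0 hD0' c hcI hcb
    hfin.toFinset (fun g hg => hS g (hfin.mem_toFinset.mp hg)) ζ
    (fun g hg => hζ g (hfin.mem_toFinset.mp hg))
  obtain ⟨X, hX⟩ := hX
  obtain ⟨q, hq0, hqN, hq⟩ := param_boundD (isNrm_NR (F := F)) (4 * (p * B + E + 2)) (by omega)
    ⟨2 * (p * B + E + 2), by ring⟩ h hdeg none
  have hcard : Fintype.card (Option (Option (Fin p ⊕ Fin p))) = 2 * p + 2 := by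
    rw [Fintype.card_option, Fintype.card_option, Fintype.card_sum, Fintype.card_fin]
    ring
  rw [hcard] at hqN hq
  set Bd := BdD (4 * (p * B + E + 2)) (2 * p + 2) (mn (NR F) h) with hBd
  have hD0r : (0 : ℝ) < D0 := by exact_mod_cast hD0
  have hq' := hq (RA F).subtype (fun a => abs_le_NR a) hnn X (by
    intro v hv
    obtain ⟨h1, h2, h3⟩ := (hzero v).mp hv
    by_contra hlt
    have h4 := hX (v none) (lt_of_not_ge hlt) (ptX v) h1
      (fun g hg => h2 g (hfin.mem_toFinset.mpr hg))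
    have h5 : 0 ≤ v (some none) ^ 2 * (2 * D0 * (∑ i, (∑ e ∈ Finset.range (E + 1),
        (c i e : ℂ) * ((v none : ℝ) : ℂ) ^ e) * ptX v i).re) :=
      mul_nonneg (sq_nonneg _) (mul_nonneg (by positivity) h4)
    rw [h3] at h5
    linarith)
  set f := (∑ i, (∑ e ∈ Finset.range (E + 1), (c i e : ℂ) * (t : ℂ) ^ e) * x i).re with hf
  have hf0 : f < 0 := lt_of_not_ge hneg
  let v : Option (Option (Fin p ⊕ Fin p)) → ℝ := fun o => match o with
    | none => t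
    | some none => 1 / √(-(2 * D0 * f))
    | some (some (Sum.inl i)) => (x i).re
    | some (some (Sum.inr i)) => (x i).im
  have hpt : ptX v = x := by
    funext i
    exact Complex.re_add_im (x i)
  have hv0 : h.eval₂ (RA F).subtype v = 0 := by
    rw [hzero v, hpt]
    refine ⟨hx, fun g hg => hx2 g (hfin.mem_toFinset.mp hg), ?_⟩
    show (1 / √(-(2 * D0 * f))) ^ 2 * (2 * D0 * f) = -1
    have h1 : 0 < -(2 * D0 * f) := by
      have : 0 < 2 * (D0 : ℝ) * -f := by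
        have : 0 < -f := by linarith
        positivity
      linarith
    rw [div_pow, one_pow, Real.sq_sqrt h1.le, div_mul_eq_mul_div, one_mul,
      div_eq_iff h1.ne']
    ring
  have h1 : |((RA F).subtype q : ℝ)| * t ≤ Bd := hq' v hv0
  have h2 := one_le_mul_NR q hq0 Dg hDg
  have hDg1 : 1 ≤ Dg := le_trans (Module.finrank_pos (R := ℚ) (M := F)) hDg
  have h3 : (NR F q : ℝ) ^ (Dg - 1) ≤ (Bd : ℝ) ^ (Dg - 1) :=
    pow_le_pow_left₀ (Nat.cast_nonneg _) (by exact_mod_cast hqN) _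
  have h4 : 1 ≤ |((RA F).subtype q : ℝ)| * (Bd : ℝ) ^ (Dg - 1) :=
    h2.trans (mul_le_mul_of_nonneg_left h3 (abs_nonneg _))
  have ht0 : 0 < t := lt_of_le_of_lt (by positivity) ht
  have h5 : t ≤ (Bd : ℝ) ^ Dg := by
    calc t = 1 * t := (one_mul _).symm
      _ ≤ |((RA F).subtype q : ℝ)| * (Bd : ℝ) ^ (Dg - 1) * t :=
          mul_le_mul_of_nonneg_right h4 ht0.le
      _ = (Bd : ℝ) ^ (Dg - 1) * (|((RA F).subtype q : ℝ)| * t) := by ring
      _ ≤ (Bd : ℝ) ^ (Dg - 1) * Bd := mul_le_mul_of_nonneg_left h1 (by positivity)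
      _ = (Bd : ℝ) ^ Dg := by
          rw [← pow_succ]
          congr 1
          omega
  have h6 : (Bd : ℝ) ≤ BdD (4 * (p * B + E + 2)) (2 * p + 2)
      (2 ^ (20 * (p + 1) * (B + 1) + 4 * Hc + 2 * E)) := by
    exact_mod_cast BdD_mono (4 * (p * B + E + 2)) (2 * p + 2) hmn
  have h7 : (Bd : ℝ) ^ Dg ≤ (BdD (4 * (p * B + E + 2)) (2 * p + 2)
      (2 ^ (20 * (p + 1) * (B + 1) + 4 * Hc + 2 * E)) : ℝ) ^ Dg :=
    pow_le_pow_left₀ (Nat.cast_nonneg _) h6 _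
  linarith

end Pool.Agent.FixRec
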