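import Pool.Agent.FixRec.Pw
import Pool.Agent.FrozenUP.SubUP

/-! The `n`-th term is positive if the sequence frozen at `n` is ultimately positive. -/

set_option autoImplicit false

namespace Pool.Agent.FixRec

open Complex Filter Pool.Agent.DD7719 Pool.Agent.DD7719.M Pool.Agent.DD7719.M.GS Pool.Agent.FrUP

/-- PROOF: a uniform version of `ev_threshold` in `FrozenUP/SubUP.lean`: `log (n + 1) ≤ ε (n + 1)` for `n ≥ N1`, with
`ε = 1 / (4 n0 (K₀ k + 1))`, and `K₀ (1 + C) ≤ n / (4 n0) - 2 - k` for `n ≥ 4 n0 (K₀ (1 + C) + 2 + k)`. Take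
`κ ≥ N1 + k + 1 + 4 n0 (K₀ (1 + g) + 2 + k)`. -/
theorem threshold_lin (K₀ g : ℝ) (hK₀ : 0 < K₀) (hg : 0 ≤ g) (k n0 : ℕ) (hn0 : 0 < n0) :
    ∃ κ : ℕ, ∀ H n : ℕ, κ * (H + 1) ≤ n →
      K₀ * (1 + (g * (H + 1) + k * Real.log (n + 1))) ≤ (((n - k) / n0 : ℕ) : ℝ) := by
  set ε : ℝ := 1 / (4 * (n0 : ℝ) * (K₀ * k + 1)) with hε
  have hn0R : (0 : ℝ) < n0 := by exact_mod_cast hn0
  have hε0 : 0 < ε := by positivity
  have h1 := Real.isLittleO_log_id_atTop.def hε0
  have h2 : ∀ᶠ n : ℕ in atTop, ‖Real.log ((n : ℝ) + 1)‖ ≤ ε * ‖id ((n : ℝ) + 1)‖ := by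
    have h3 : Tendsto (fun n : ℕ => ((n : ℝ) + 1)) atTop atTop :=
      tendsto_natCast_atTop_atTop.atTop_add tendsto_const_nhds
    exact h3.eventually h1
  rw [eventually_atTop] at h2
  obtain ⟨N2, hN2⟩ := h2
  obtain ⟨N1, hN1⟩ := exists_nat_gt (4 * (n0 : ℝ) * (K₀ * (1 + g) + 2 + k))
  refine ⟨N1 + N2 + k + 1, fun H n hnH => ?_⟩
  have hnN : N1 * (H + 1) ≤ n := (Nat.mul_le_mul_right _ (by omega)).trans hnH
  have hnN2 : N2 + k + 1 ≤ n := by
    have h3 : (N2 + k + 1) * 1 ≤ (N1 + N2 + k + 1) * (H + 1) :=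
      Nat.mul_le_mul (by omega) (by omega)
    omega
  have hn := hN2 n (by omega)
  rw [id, Real.norm_eq_abs, Real.norm_eq_abs, abs_of_pos (show (0 : ℝ) < (n : ℝ) + 1 by positivity)]
    at hn
  have h3 : Real.log ((n : ℝ) + 1) ≤ ε * ((n : ℝ) + 1) := (le_abs_self _).trans hn
  have h4 : ((n : ℝ) - k) / n0 - 1 ≤ (((n - k) / n0 : ℕ) : ℝ) := by
    have h5 := Nat.lt_div_mul_add hn0 (a := n - k)
    have h6 : ((n - k : ℕ) : ℝ) < (((n - k) / n0 : ℕ) : ℝ) * n0 + n0 := by exact_mod_cast h5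
    rw [Nat.cast_sub (by omega)] at h6
    rw [sub_le_iff_le_add, div_le_iff₀ hn0R]
    linarith
  refine le_trans ?_ h4
  have hkR : (0 : ℝ) ≤ k := Nat.cast_nonneg k
  have hHR : (0 : ℝ) ≤ H := Nat.cast_nonneg H
  have hnN' : 4 * (n0 : ℝ) * (K₀ * (1 + g * (H + 1)) + 2 + k) ≤ n := by
    have h5 : (N1 : ℝ) * (H + 1) ≤ n := by exact_mod_cast hnN
    have h6 : 4 * (n0 : ℝ) * (K₀ * (1 + g) + 2 + k) * (H + 1) ≤ (N1 : ℝ) * (H + 1) :=
      mul_le_mul_of_nonneg_right hN1.le (by linarith)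
    have h7 : K₀ * (1 + g * (H + 1)) + 2 + k ≤ (K₀ * (1 + g) + 2 + k) * (H + 1) := by
      have h8 : 0 ≤ K₀ * H := by positivity
      have h9 : 0 ≤ (2 + (k : ℝ)) * H := by positivity
      nlinarith
    have h8 : 4 * (n0 : ℝ) * (K₀ * (1 + g * (H + 1)) + 2 + k) ≤
        4 * (n0 : ℝ) * ((K₀ * (1 + g) + 2 + k) * (H + 1)) :=
      mul_le_mul_of_nonneg_left h7 (by positivity)
    linarith
  have h7 : K₀ * (k * Real.log ((n : ℝ) + 1)) ≤ ((n : ℝ) + 1) / (4 * n0) := by
    calc K₀ * (k * Real.log ((n : ℝ) + 1)) ≤ K₀ * (k * (ε * ((n : ℝ) + 1))) := by gcongr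
      _ = (K₀ * k) * ε * ((n : ℝ) + 1) := by ring
      _ ≤ (K₀ * k + 1) * ε * ((n : ℝ) + 1) := by
          have : (0 : ℝ) ≤ (n : ℝ) + 1 := by positivity
          gcongr
          linarith
      _ = ((n : ℝ) + 1) / (4 * n0) := by
          rw [hε]
          field_simp
  have h8 : K₀ * (1 + g * (H + 1)) ≤ (n : ℝ) / (4 * n0) - 2 - k := by
    have h9 : K₀ * (1 + g * (H + 1)) + 2 + k ≤ (n : ℝ) / (4 * n0) := by
      rw [le_div_iff₀ (by positivity)]
      linarith
    linarith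
  have h11 : ((n : ℝ) - k) / n0 ≥ (n : ℝ) / n0 - k := by
    rw [sub_div]
    have : (k : ℝ) / n0 ≤ k := div_le_self hkR (by exact_mod_cast hn0)
    linarith
  have h12 : ((n : ℝ) + 1) / (4 * n0) ≤ (n : ℝ) / (4 * n0) + 1 := by
    rw [add_div]
    have : (1 : ℝ) / (4 * n0) ≤ 1 := by
      rw [div_le_one (by positivity)]
      have : (1 : ℝ) ≤ n0 := by exact_mod_cast hn0
      linarith
    linarith
  have h13 : (n : ℝ) / n0 = 4 * ((n : ℝ) / (4 * n0)) := by field_simp
  have h14 : 0 ≤ (n : ℝ) / (4 * n0) := by positivity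
  have h15 : K₀ * (1 + (g * (H + 1) + k * Real.log (n + 1))) = K₀ * (1 + g * (H + 1)) +
      K₀ * (k * Real.log ((n : ℝ) + 1)) := by ring
  rw [h15]
  nlinarith

/-- PROOF: the proof of `up_of_frozen` (`FrozenUP/SubUP.lean`) with the field `F` (it contains `I`, the `l i` and the `c i`)
instead of `K` (so that `N`, `Λ`, `K₀` from `threshold` do not depend on `c`), and with `CB_pw` (`J = k + N`) instead of
`exists_denominator`: `q₀ = D0 ≤ 2 ^ (H + m)`, `g (J, i) = D0 * (c i * l i ^ (k + J - ex i))`, all conjugates at most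
`D0 * 2 ^ (H + m) ≤ 4 ^ (H + m)`. So `B = ((1 + 4 ^ (H + m)) (1 + k)) (n + 1) ^ k`, `log B ≤ g * (H + 1) + k log (n + 1)`, and
`threshold_lin`. Embeddings `σ : F →+* ℂ` are `ℚ`-algebra maps (`RingHom.equivRatAlgHom` or `RingHom.toRatAlgHom`). -/
theorem pos_fixed {k : ℕ} (l : Fin k → ℂ) (ex : Fin k → ℕ) (hk : 0 < k) (hex : ∀ i, ex i < k)
    (hal : ∀ i, IsIntegral ℚ (l i)) (hconj : ∀ i, ∃ i', l i' = (starRingEnd ℂ) (l i))
    (F : IntermediateField ℚ ℂ) (hF : FD F l) :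
    ∃ κ : ℕ, ∀ (c : Fin k → ℂ) (H : ℕ), CB F c H → ∀ v : ℕ → ℝ,
      (∀ n, ∑ i, c i * (n.choose (ex i) : ℂ) * l i ^ (n - ex i) = (v n : ℂ)) →
      ∀ n : ℕ, κ * (H + 1) ≤ n → (∃ M : ℕ, ∀ m, M ≤ m → 0 < (fs l c ex (n : ℝ) m).re) → 0 < v n := by
  classical
  obtain ⟨N, hN, htor⟩ := exists_common_torsion l
  have : FiniteDimensional ℚ F := hF.fin
  have : NumberField F := ⟨⟩
  let φ : F →+* ℂ := algebraMap F ℂ
  let lK : Fin k → F := fun i => ⟨l i, hF.hl i⟩
  have hφl : ∀ i, φ (lK i) = l i := fun _ => rfl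
  have hφ : NumberField.ComplexEmbedding.conjugate φ ≠ φ := by
    intro h
    have h1 : φ ⟨Complex.I, hF.hI⟩ = Complex.I := rfl
    have h2 := congrArg (fun f : F →+* ℂ => f ⟨Complex.I, hF.hI⟩) h
    simp only [NumberField.ComplexEmbedding.conjugate_coe_eq, h1, Complex.conj_I] at h2
    have h3 := congrArg Complex.im h2
    simp at h3
    norm_num at h3
  choose si hsi using hconj
  -- the nonzero powers
  set Λ : Finset F := (Finset.univ.image fun i => lK i ^ N).erase 0 with hΛ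
  have hΛmem : ∀ x : Λ, ∃ i, lK i ^ N = x.1 ∧ lK i ≠ 0 := by
    intro x
    obtain ⟨h1, h2⟩ := Finset.mem_erase.mp x.2
    obtain ⟨i, _, hi⟩ := Finset.mem_image.mp h2
    refine ⟨i, hi, ?_⟩
    intro h
    apply h1
    rw [← hi, h, zero_pow hN.ne']
  have hτex : ∀ x : Λ, ∃ y : Λ, φ y.1 = (starRingEnd ℂ) (φ x.1) := by
    intro x
    obtain ⟨i, hi, hi0⟩ := hΛmem x
    have h1 : φ (lK (si i) ^ N) = (starRingEnd ℂ) (φ x.1) := by
      rw [map_pow, hφl, hsi, ← hi, map_pow, map_pow, hφl]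
    refine ⟨⟨lK (si i) ^ N,
      Finset.mem_erase.mpr ⟨?_, Finset.mem_image_of_mem _ (Finset.mem_univ _)⟩⟩, h1⟩
    intro h
    rw [h, map_zero] at h1
    have h2 : φ x.1 = 0 := by
      rw [← Complex.conj_conj (φ x.1), ← h1, map_zero]
    exact (Finset.mem_erase.mp x.2).1 ((map_eq_zero φ).mp h2)
  choose τ hτ using hτex
  obtain ⟨K₀, hK₀, hthr⟩ := threshold φ hφ (fun x : Λ => x.1) (fun x => (Finset.mem_erase.mp x.2).1)
    (by
      intro x y hxy n hn h
      apply hxy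
      obtain ⟨i, hi, hi0⟩ := hΛmem x
      obtain ⟨j, hj, hj0⟩ := hΛmem y
      have hy0 : y.1 ≠ 0 := (Finset.mem_erase.mp y.2).1
      rw [div_pow, div_eq_one_iff_eq (pow_ne_zero _ hy0), ← hi, ← hj, ← pow_mul, ← pow_mul] at h
      have h1 := congrArg φ h
      rw [map_pow, map_pow, hφl, hφl] at h1
      have h2 := htor i j ⟨N * n, by positivity, h1⟩
      apply Subtype.ext
      rw [← hi, ← hj]
      apply φ.injective
      rw [map_pow, map_pow, hφl, hφl]
      exact h2) τ hτ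
  obtain ⟨mm, hmm⟩ := CB_pw l ex F hF (k + N)
  have hlog4 : 0 < Real.log 4 := Real.log_pos (by norm_num)
  set gg : ℝ := (mm + 1) * Real.log 4 + k with hgg
  have hkR : (0 : ℝ) ≤ k := Nat.cast_nonneg k
  have hgg0 : 0 ≤ gg := by positivity
  obtain ⟨κ, hκ⟩ := threshold_lin K₀ gg hK₀ hgg0 k N hN
  refine ⟨κ + k + 1, fun c H hc v hv n hn h => ?_⟩
  have hnκ : κ * (H + 1) ≤ n := (Nat.mul_le_mul_right _ (by omega)).trans hn
  have hnk : k + 1 ≤ n := by
    have h3 : (k + 1) * 1 ≤ (κ + k + 1) * (H + 1) := Nat.mul_le_mul (by omega) (by omega)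
    omega
  let cK : Fin k → F := fun i => ⟨c i, hc.mem i⟩
  have hφc : ∀ i, φ (cK i) = c i := fun _ => rfl
  -- the residue class
  set J : ℕ := (n - k) % N with hJ
  set m : ℕ := (n - k) / N with hm
  have hJN : J < N := Nat.mod_lt _ hN
  have hnJ : n = (k + J) + N * m := by
    have := Nat.mod_add_div (n - k) N
    rw [← hJ, ← hm] at this
    omega
  have hcb := hmm c H hc (k + J) (by omega)
  obtain ⟨q₀, hq₀, hq₀le, hqint⟩ := hcb.den
  have hq₀R : (0 : ℝ) < q₀ := by exact_mod_cast hq₀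
  have hgint : ∀ i, IsIntegral ℤ ((q₀ : F) * (cK i * lK i ^ (k + J - ex i))) := by
    intro i
    have h1 : IsIntegral ℤ (algebraMap F ℂ ((q₀ : F) * (cK i * lK i ^ (k + J - ex i)))) := by
      have h2 := hqint i
      have h3 : algebraMap F ℂ ((q₀ : F) * (cK i * lK i ^ (k + J - ex i))) =
          (q₀ : ℂ) * (c i * l i ^ (k + J - ex i)) := by
        rw [map_mul, map_mul, map_pow, map_natCast]
        rfl
      rw [h3]
      exact h2
    exact (isIntegral_algebraMap_iff (algebraMap F ℂ).injective).1 h1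
  let g : Fin k → NumberField.RingOfIntegers F := fun i => ⟨_, hgint i⟩
  have hgK : ∀ i, ((g i : NumberField.RingOfIntegers F) : F) =
      (q₀ : F) * (cK i * lK i ^ (k + J - ex i)) := fun i => rfl
  set G : ℝ := 4 ^ (H + mm) with hG
  have hG0 : 0 ≤ G := by positivity
  have hGle : ∀ i (σ : F →+* ℂ), ‖σ (g i : F)‖ ≤ G := by
    intro i σ
    have h1 := hcb.size i (hcb.mem i) σ.toRatAlgHom
    have h2 : σ.toRatAlgHom ⟨c i * l i ^ (k + J - ex i), hcb.mem i⟩ =
        σ (cK i * lK i ^ (k + J - ex i)) := rfl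
    rw [h2] at h1
    rw [hgK, map_mul, norm_mul, map_natCast, Complex.norm_natCast]
    have h3 : (q₀ : ℝ) ≤ 2 ^ (H + mm) := by exact_mod_cast hq₀le
    calc (q₀ : ℝ) * ‖σ (cK i * lK i ^ (k + J - ex i))‖ ≤ 2 ^ (H + mm) * 2 ^ (H + mm) :=
          mul_le_mul h3 h1 (norm_nonneg _) (by positivity)
      _ = G := by rw [hG, ← mul_pow]; norm_num
  set x : Λ → NumberField.RingOfIntegers F := fun y =>
    ∑ i with lK i ^ N = y.1, (n.choose (ex i) : NumberField.RingOfIntegers F) * g i with hx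
  have hxK : ∀ y : Λ, (x y : F) = ∑ i with lK i ^ N = y.1,
      (n.choose (ex i) : F) * ((q₀ : F) * (cK i * lK i ^ (k + J - ex i))) := by
    intro y
    simp only [hx]
    push_cast
    rfl
  have hφx : ∀ y : Λ, φ (x y : F) =
      (q₀ : ℂ) * (gP l c ex N (k + J) (φ y.1)).eval ((n : ℝ) : ℂ) := by
    intro y
    rw [hxK, map_sum, gP_eval, Finset.mul_sum]
    have hset : (Finset.univ.filter fun i => lK i ^ N = y.1) =
        (Finset.univ.filter fun i => l i ^ N = φ y.1) := by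
      ext i
      simp only [Finset.mem_filter, Finset.mem_univ, true_and]
      rw [← hφl i, ← map_pow]
      exact φ.injective.eq_iff.symm
    rw [hset]
    refine Finset.sum_congr rfl fun i _ => ?_
    rw [map_mul, map_mul, map_mul, map_pow, map_natCast, map_natCast, hφc, hφl, bcP_eval_real, bc_nat]
    push_cast
    ring
  have hsum : ∀ m' : ℕ, φ (∑ y : Λ, (x y : F) * y.1 ^ m') =
      (q₀ : ℂ) * fs l c ex (n : ℝ) ((k + J) + N * m') := by
    intro m'
    rw [map_sum]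
    have e1 : ∀ y : Λ, φ ((x y : F) * y.1 ^ m') =
        (q₀ : ℂ) * ((gP l c ex N (k + J) (φ y.1)).eval ((n : ℝ) : ℂ) * (φ y.1) ^ m') := by
      intro y
      rw [map_mul, map_pow, hφx]
      ring
    rw [Finset.sum_congr rfl fun y _ => e1 y, ← Finset.mul_sum]
    congr 1
    have e2 := sum_grp l c ex N (k + J) (fun i => l i ≠ 0) (by
      intro i i' h h' h0
      apply h'
      have h1 := norm_eq_of_pow_eq hN h
      rw [h0, norm_zero, norm_eq_zero] at h1
      exact h1) ((n : ℝ) : ℂ) (fun X => X ^ m')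
    have e3 : fs l c ex (n : ℝ) ((k + J) + N * m') = ∑ i, (if l i ≠ 0 then
        c i * (bcP (ex i)).eval ((n : ℝ) : ℂ) * l i ^ (k + J - ex i) * (l i ^ N) ^ m' else 0) := by
      rw [fs]
      refine Finset.sum_congr rfl fun i _ => ?_
      split_ifs with h0
      · rw [pow_add, ← mul_assoc, fc_mul_pow l c ex n (k + J) i (by have := hex i; omega) h0,
          bcP_eval_real, pow_mul]
      · push Not at h0
        rw [fc, if_pos h0, zero_mul]
    rw [e3, e2, Finset.sum_coe_sort Λ (fun y => (gP l c ex N (k + J) (φ y)).eval ((n : ℝ) : ℂ) *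
      (φ y) ^ m')]
    have e4 : (Finset.univ.filter fun i => l i ≠ 0).image (fun i => l i ^ N) = Λ.image φ := by
      ext X
      simp only [Finset.mem_image, Finset.mem_filter, Finset.mem_univ, true_and, hΛ,
        Finset.mem_erase]
      constructor
      · rintro ⟨i, hi, rfl⟩
        refine ⟨lK i ^ N, ⟨?_, i, rfl⟩, by rw [map_pow, hφl]⟩
        intro h0
        apply pow_ne_zero N hi
        rw [← hφl i, ← map_pow, h0, map_zero]
      · rintro ⟨y, ⟨hy, i, rfl⟩, rfl⟩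
        refine ⟨i, ?_, by rw [map_pow, hφl]⟩
        intro h0
        apply hy
        apply φ.injective
        rw [map_pow, hφl, h0, zero_pow hN.ne', map_zero]
    rw [e4, Finset.sum_image (fun a _ b _ h => φ.injective h)]
  set B : ℝ := ((1 + G) * (1 + k)) * ((n : ℝ) + 1) ^ k with hB
  have hn1 : (1 : ℝ) ≤ ((n : ℝ) + 1) ^ k := one_le_pow₀ (by
    have : (0 : ℝ) ≤ n := Nat.cast_nonneg n
    linarith)
  have hGk : (1 : ℝ) ≤ (1 + G) * (1 + k) := by nlinarith
  have hBlog : Real.log B = Real.log ((1 + G) * (1 + k)) + k * Real.log ((n : ℝ) + 1) := by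
    rw [hB, Real.log_mul (by linarith) (by linarith), Real.log_pow]
  have hGlog : Real.log ((1 + G) * (1 + k)) ≤ gg * (H + 1) := by
    rw [Real.log_mul (by linarith) (by linarith)]
    have h1 : Real.log (1 + G) ≤ (H + mm + 1) * Real.log 4 := by
      have h2 : 1 + G ≤ 4 ^ (H + mm + 1) := by
        have h3 : (1 : ℝ) ≤ 4 ^ (H + mm) := one_le_pow₀ (by norm_num)
        rw [pow_succ, hG]
        linarith
      refine (Real.log_le_log (by linarith) h2).trans ?_
      rw [Real.log_pow]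
      push_cast
      exact le_rfl
    have h2 : Real.log (1 + (k : ℝ)) ≤ k := by
      have h3 := Real.log_le_sub_one_of_pos (show (0 : ℝ) < 1 + k by linarith)
      linarith
    have hHR : (0 : ℝ) ≤ H := Nat.cast_nonneg H
    have hmR : (0 : ℝ) ≤ mm := Nat.cast_nonneg mm
    have h3 : ((H : ℝ) + mm + 1) * Real.log 4 ≤ (mm + 1) * (H + 1) * Real.log 4 := by
      refine mul_le_mul_of_nonneg_right ?_ hlog4.le
      nlinarith
    have h4 : (k : ℝ) ≤ k * (H + 1) := by nlinarith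
    rw [hgg]
    linarith
  have h1 := hthr x B (by rw [hB]; nlinarith) (by
    intro σ y
    rw [hx]
    simp only
    push_cast
    rw [map_sum]
    refine (norm_sum_le _ _).trans ?_
    have h2 : ∀ i ∈ (Finset.univ.filter fun i => lK i ^ N = y.1),
        ‖σ ((n.choose (ex i) : F) * (g i : F))‖ ≤ ((n : ℝ) + 1) ^ k * G := by
      intro i _
      rw [map_mul, norm_mul, map_natCast, Complex.norm_natCast]
      refine mul_le_mul ?_ (hGle _ _) (norm_nonneg _) (by positivity)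
      have h3 : (n.choose (ex i) : ℝ) ≤ (n : ℝ) ^ ex i := by exact_mod_cast Nat.choose_le_pow n (ex i)
      refine h3.trans ?_
      calc (n : ℝ) ^ ex i ≤ ((n : ℝ) + 1) ^ ex i := by gcongr; linarith
        _ ≤ ((n : ℝ) + 1) ^ k := pow_le_pow_right₀ (by
            have : (0 : ℝ) ≤ n := Nat.cast_nonneg n
            linarith) (hex i).le
    refine (Finset.sum_le_sum h2).trans ?_
    rw [Finset.sum_const, nsmul_eq_mul]
    have h4 : ((Finset.univ.filter fun i => lK i ^ N = y.1).card : ℝ) ≤ k := by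
      have := (Finset.univ.filter fun i => lK i ^ N = y.1).card_le_univ
      rw [Fintype.card_fin] at this
      exact_mod_cast this
    have h5 : 0 ≤ ((n : ℝ) + 1) ^ k * G := by positivity
    calc ((Finset.univ.filter fun i => lK i ^ N = y.1).card : ℝ) * (((n : ℝ) + 1) ^ k * G)
        ≤ k * (((n : ℝ) + 1) ^ k * G) := mul_le_mul_of_nonneg_right h4 h5
      _ ≤ B := by
          rw [hB]
          have : k * G ≤ (1 + G) * (1 + k) := by nlinarith
          nlinarith) (by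
    intro y
    rw [hφx, hφx, map_mul, map_natCast]
    congr 1
    have h3 := gP_conj l c ex N (k + J) hN (fun i => by have := hex i; omega) v hv (φ (τ y).1) (by
      rw [Ne, map_eq_zero]
      exact (Finset.mem_erase.mp (τ y).2).1) (n : ℝ)
    rw [← h3, hτ y, Complex.conj_conj]) (by
    obtain ⟨M, hM⟩ := h
    refine ⟨M, fun m' hm' => ?_⟩
    rw [hsum]
    have h3 := hM ((k + J) + N * m') (by nlinarith)
    have h4 : ((q₀ : ℂ) * fs l c ex (n : ℝ) ((k + J) + N * m')).re =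
        (q₀ : ℝ) * (fs l c ex (n : ℝ) ((k + J) + N * m')).re := by
      rw [← Complex.ofReal_natCast, Complex.re_ofReal_mul]
    rw [h4]
    positivity) m (by
    rw [hBlog]
    refine le_trans ?_ (hκ H n hnκ)
    refine mul_le_mul_of_nonneg_left ?_ hK₀.le
    linarith)
  rw [hsum, ← hnJ, fs_diag l c ex hex v hv n (by omega)] at h1
  rw [← Complex.ofReal_natCast, ← Complex.ofReal_mul, Complex.ofReal_re] at h1
  exact (mul_pos_iff_of_pos_left hq₀R).mp h1

end Pool.Agent.FixRec
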