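import Pool.Agent.FixRec.Fld

/-! The level functions of a frozen positive sequence are nonnegative for large parameters. -/

set_option autoImplicit false

namespace Pool.Agent.FixRec

open Complex Filter Topology Pool.Agent.DD7719 Pool.Agent.DD7719.M Pool.Agent.DD7719.M.GS Pool.Agent.FrUP

open scoped Classical in
/-- the frozen sequence divided by a power of `ρ` -/
private lemma fs_scaled {k : ℕ} (l c : Fin k → ℂ) (ex : Fin k → ℕ) (hex : ∀ i, ex i < k)
    (n0 j : ℕ) (hn0 : 0 < n0) (hj : k ≤ j) (ρ : ℝ) (hρ : 0 < ρ)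
    (hg : ∀ i, ρ < ‖l i‖ → gP l c ex n0 j (l i ^ n0) = 0) (x : ℝ) (m : ℕ) :
    fs l c ex x (j + n0 * m) = ((ρ ^ (n0 * m) : ℝ) : ℂ) *
      ∑ i, (if ρ < ‖l i‖ then 0 else c i * ((bc (ex i) x : ℝ) : ℂ) * l i ^ (j - ex i) *
        ((l i / (ρ : ℂ)) ^ n0) ^ m) := by
  have hexj : ∀ i, ex i ≤ j := fun i => ((hex i).le.trans hj)
  have hinv : ∀ i i', l i ^ n0 = l i' ^ n0 → ρ < ‖l i‖ → ρ < ‖l i'‖ := by
    intro i i' h h1
    rwa [← norm_eq_of_pow_eq hn0 h]
  have h1 := sum_eq_zero_of_gP' l c ex n0 j (fun i => ρ < ‖l i‖) hinv hg (x : ℂ)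
    (fun X => X ^ m)
  have hρc : (ρ : ℂ) ≠ 0 := by exact_mod_cast hρ.ne'
  have hterm : ∀ i, fc l c ex x i * l i ^ (j + n0 * m) =
      c i * ((bc (ex i) x : ℝ) : ℂ) * l i ^ (j - ex i) * (l i ^ n0) ^ m := by
    intro i
    by_cases hi : l i = 0
    · have h2 : j - ex i ≠ 0 := by
        have := hex i
        omega
      rw [fc, if_pos hi, hi, zero_pow h2]
      ring
    · rw [pow_add, ← mul_assoc, fc_mul_pow l c ex x j i (hexj i) hi, pow_mul]
  have h3 : fs l c ex x (j + n0 * m) = ∑ i, ((if ρ < ‖l i‖ then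
      c i * (bcP (ex i)).eval (x : ℂ) * l i ^ (j - ex i) * (fun X : ℂ => X ^ m) (l i ^ n0) else 0) +
      (if ρ < ‖l i‖ then 0 else
        c i * ((bc (ex i) x : ℝ) : ℂ) * l i ^ (j - ex i) * (l i ^ n0) ^ m)) := by
    unfold fs
    refine Finset.sum_congr rfl fun i _ => ?_
    rw [hterm i]
    split_ifs
    · rw [add_zero, bcP_eval_real]
    · rw [zero_add]
  rw [h3, Finset.sum_add_distrib, h1, zero_add, Finset.mul_sum]
  refine Finset.sum_congr rfl fun i _ => ?_
  split_ifs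
  · rw [mul_zero]
  · have h4 : (l i ^ n0) ^ m = ((ρ ^ (n0 * m) : ℝ) : ℂ) * ((l i / (ρ : ℂ)) ^ n0) ^ m := by
      push_cast
      rw [← pow_mul, ← pow_mul, ← mul_pow, mul_div_cancel₀ _ hρc]
    rw [h4]
    ring

open scoped Classical in
private lemma nonneg_rat {k : ℕ} (l c : Fin k → ℂ) (ex : Fin k → ℕ) (hex : ∀ i, ex i < k)
    (n0 j : ℕ) (hn0 : 0 < n0) (hj : k ≤ j) (ρ : ℝ) (hρ : 0 < ρ)
    (hg : ∀ i, ρ < ‖l i‖ → gP l c ex n0 j (l i ^ n0) = 0) (x : ℝ)
    (hup : ∃ N, ∀ n, N ≤ n → 0 < (fs l c ex x n).re)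
    (w : Fin k → ℂ) (hw : w ∈ Tor0 (fun i => nz (l i) ^ n0)) :
    0 ≤ (∑ i, (if ‖l i‖ = ρ then c i * ((bc (ex i) x : ℝ) : ℂ) * l i ^ (j - ex i) * w i
      else 0)).re := by
  obtain ⟨hw1, hw2⟩ := hw
  have hkr : ∀ t : ℕ, ∃ m : ℕ, t ≤ m ∧ ∀ i, ‖(nz (l i) ^ n0) ^ (1 * m) - w i‖ <
      1 / ((t : ℝ) + 1) := by
    intro t
    refine kronecker (fun i => nz (l i) ^ n0) w (fun i => ?_) hw1 (fun g hgg => hw2 g hgg) 1
      one_pos t _ (by positivity)
    rw [norm_pow, norm_nz, one_pow]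
  choose m hm1 hm2 using hkr
  have hmt : Tendsto m atTop atTop := tendsto_atTop_mono hm1 tendsto_id
  have hρc : (ρ : ℂ) ≠ 0 := by exact_mod_cast hρ.ne'
  have hlim : Tendsto (fun t => ∑ i, (if ρ < ‖l i‖ then 0 else
      c i * ((bc (ex i) x : ℝ) : ℂ) * l i ^ (j - ex i) * ((l i / (ρ : ℂ)) ^ n0) ^ (m t)))
      atTop (𝓝 (∑ i, (if ‖l i‖ = ρ then c i * ((bc (ex i) x : ℝ) : ℂ) * l i ^ (j - ex i) * w i
      else 0))) := by
    refine tendsto_finsetSum _ fun i _ => ?_
    by_cases h1 : ρ < ‖l i‖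
    · have h2 : ‖l i‖ ≠ ρ := h1.ne'
      simp only [if_pos h1, if_neg h2]
      exact tendsto_const_nhds
    · simp only [if_neg h1]
      by_cases h2 : ‖l i‖ = ρ
      · simp only [if_pos h2]
        refine tendsto_const_nhds.mul ?_
        have h3 : l i / (ρ : ℂ) = nz (l i) := by
          rw [div_eq_iff hρc, mul_comm, ← h2, nz_mul_norm]
        rw [h3]
        rw [tendsto_iff_norm_sub_tendsto_zero]
        refine squeeze_zero (fun t => norm_nonneg _) (fun t => ?_)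
          tendsto_one_div_add_atTop_nhds_zero_nat
        have h4 := hm2 t i
        rw [one_mul] at h4
        exact h4.le
      · simp only [if_neg h2]
        have h3 : ‖l i‖ < ρ := lt_of_le_of_ne (not_lt.mp h1) h2
        have h4 : ‖(l i / (ρ : ℂ)) ^ n0‖ < 1 := by
          rw [norm_pow, norm_div, Complex.norm_real, Real.norm_of_nonneg hρ.le]
          exact pow_lt_one₀ (by positivity) ((div_lt_one hρ).mpr h3) hn0.ne'
        have h5 := (tendsto_pow_atTop_nhds_zero_of_norm_lt_one h4).comp hmt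
        have h6 := h5.const_mul (c i * ((bc (ex i) x : ℝ) : ℂ) * l i ^ (j - ex i))
        rw [mul_zero] at h6
        exact h6
  have hre := (Complex.continuous_re.tendsto _).comp hlim
  refine ge_of_tendsto hre ?_
  obtain ⟨N, hN⟩ := hup
  filter_upwards [eventually_ge_atTop N] with t ht
  have h1 : N ≤ j + n0 * m t := by
    have h2 : m t ≤ n0 * m t := Nat.le_mul_of_pos_left _ hn0
    have h3 := hm1 t
    omega
  have h2 := hN _ h1
  rw [fs_scaled l c ex hex n0 j hn0 hj ρ hρ hg x (m t), Complex.re_ofReal_mul] at h2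
  have h3 : (0 : ℝ) < ρ ^ (n0 * m t) := by positivity
  exact (pos_of_mul_pos_of_pos_left h2 h3).le
where
  pos_of_mul_pos_of_pos_left {a b : ℝ} (h : 0 < a * b) (ha : 0 < a) : 0 < b :=
    (mul_pos_iff_of_pos_left ha).mp h

open scoped Classical in
/-- PROOF: let `x ≥ τ` be rational and `j ≥ k` (so `ex i ≤ j`). For `n = j + n0 m`: the terms of `fs l c ex x n` with
`l i = 0` vanish, the others are `c i * bc (ex i) x * l i ^ (j - ex i) * (l i ^ n0) ^ m` (`fc_mul_pow`); the sum over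
`ρ < ‖l i‖` vanishes (`sum_eq_zero_of_gP'` with `T X = X ^ m`, `bcP_eval_real`). Divide by `ρ ^ (n0 m)`: the terms with
`‖l i‖ < ρ` tend to `0`, those with `‖l i‖ = ρ` are `c i * bc * l i ^ (j - ex i) * (nz (l i) ^ n0) ^ m`. For `w ∈ Tor0` and
`ε > 0` there are arbitrarily large `m` with `‖(nz (l i) ^ n0) ^ m - w i‖ < ε` for all `i` (`kronecker`, `E = 1`;
`IsRel` is its hypothesis). As `0 < re` for large `m`, the limit is `0 ≤ re (...)`. This holds for all rational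
`x ≥ τ`; the function of the real variable `x` is continuous (`continuous_bc`), hence it holds for all real
`x > τ` (`X = τ`; density of the rational numbers). -/
theorem nonneg_of_frozen {k : ℕ} (l c : Fin k → ℂ) (ex : Fin k → ℕ) (hex : ∀ i, ex i < k) (n0 j : ℕ)
    (hn0 : 0 < n0) (hj : k ≤ j) (τ : ℝ)
    (hup : ∀ x : ℚ, τ ≤ x → ∃ N, ∀ n, N ≤ n → 0 < (fs l c ex (x : ℝ) n).re) (ρ : ℝ) (hρ : 0 < ρ)
    (hg : ∀ i, ρ < ‖l i‖ → gP l c ex n0 j (l i ^ n0) = 0) (x : ℝ) (hx : τ < x)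
    (w : Fin k → ℂ) (hw : w ∈ Tor0 (fun i => nz (l i) ^ n0)) :
    0 ≤ (∑ i, (if ‖l i‖ = ρ then c i * ((bc (ex i) x : ℝ) : ℂ) * l i ^ (j - ex i) * w i
      else 0)).re := by
  have hcont : Continuous fun y : ℝ =>
      (∑ i, (if ‖l i‖ = ρ then c i * ((bc (ex i) y : ℝ) : ℂ) * l i ^ (j - ex i) * w i
      else 0)).re := by
    apply Complex.continuous_re.comp
    apply continuous_finsetSum
    intro i _
    split_ifs
    · exact ((continuous_const.mul (Complex.continuous_ofReal.comp (continuous_bc _))).mul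
        continuous_const).mul continuous_const
    · exact continuous_const
  by_contra hneg
  push Not at hneg
  have h1 := (hcont.tendsto x).eventually (gt_mem_nhds hneg)
  rw [Metric.eventually_nhds_iff] at h1
  obtain ⟨η, hη, h2⟩ := h1
  obtain ⟨q, hq1, hq2⟩ := exists_rat_btwn (show x < x + η by linarith)
  have h3 := nonneg_rat l c ex hex n0 j hn0 hj ρ hρ hg (q : ℝ) (hup q (by linarith)) w hw
  have h4 : dist (q : ℝ) x < η := by
    rw [Real.dist_eq, abs_of_pos (by linarith)]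
    linarith
  exact absurd (h2 h4) (not_lt.mpr h3)

end Pool.Agent.FixRec
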