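import Pool.Agent.FixRec.Fld

/-! Data of the classes for fixed roots. -/

set_option autoImplicit false

namespace Pool.Agent.FixRec

open Complex Pool.Agent.DD7719 Pool.Agent.DD7719.M Pool.Agent.DD7719.M.GS Pool.Agent.FrUP

private lemma torsion_Rep {k : ℕ} (l : Fin k → ℂ) : ∃ N : ℕ, 0 < N ∧ ∀ i j,
    (∃ n : ℕ, 0 < n ∧ l i ^ n = l j ^ n) → l i ^ N = l j ^ N := by
  classical
  have h1 : ∀ i j, ∃ n : ℕ, 0 < n ∧
      ((∃ n : ℕ, 0 < n ∧ l i ^ n = l j ^ n) → l i ^ n = l j ^ n) := by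
    intro i j
    by_cases h : ∃ n : ℕ, 0 < n ∧ l i ^ n = l j ^ n
    · obtain ⟨n, hn, h'⟩ := h
      exact ⟨n, hn, fun _ => h'⟩
    · exact ⟨1, one_pos, fun h' => absurd h' h⟩
  choose n hn h using h1
  refine ⟨∏ p : Fin k × Fin k, n p.1 p.2, Finset.prod_pos fun p _ => hn _ _, fun i j hij => ?_⟩
  obtain ⟨c, hc⟩ : n i j ∣ ∏ p : Fin k × Fin k, n p.1 p.2 :=
    Finset.dvd_prod_of_mem (fun p : Fin k × Fin k => n p.1 p.2) (Finset.mem_univ (i, j))
  rw [hc, pow_mul, pow_mul, h i j hij]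

/-- the last argument of `cert_limit`: the characters satisfy all relations up to torsion -/
private lemma torus_Rep {k : ℕ} (l : Fin k → ℂ) (R M n0 : ℕ) (hR : 1 ≤ R) (hM : 1 ≤ M)
    (hrb : RelBound k l R)
    (A H : Fin k → Fin k → ℤ) (D : ℤ) (s : ℕ) (w : Fin k → Fin k → ℝ) (τ : Fin k → ℝ) (ε δ : ℝ)
    (hD : D ≠ 0)
    (hHA : ∀ l' i, ∑ t, H l' t * A i t = if l' = i then D else 0)
    (hA : ∀ l' t, |A l' t| ≤ M) (hH : ∀ l' t, |H l' t| ≤ M)
    (hδ' : ∀ i, ‖nz (l i) ^ n0 - 1‖ ≤ δ)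
    (hw : ∀ i : Fin k, (i : ℕ) < s → ∀ l', i ≤ l' → ∑ t, (H l' t : ℝ) * w i t =
      (if l' = i then (D : ℝ) else 0) - τ i * (∏ t, (nz (l t) ^ n0) ^ H l' t).im)
    (hwε : ∀ i : Fin k, (i : ℕ) < s → ∀ t, |w i t| ≤ ε)
    (hε : 4 * k * R * ε ≤ 1) (hδ : 8 * k ^ 3 * M ^ 2 * R * δ ≤ 1)
    (z : Fin k → ℂ) (hz : ∀ t, ‖z t‖ = 1) (g : Fin k → ℤ) (n : ℕ) (hn : 0 < n)
    (hg : (∏ i, nz (l i) ^ g i) ^ n = 1) : ∏ i, Wt A s z i ^ g i = 1 := by
  have hrel : ∀ i : Fin k, (i : ℕ) < s → ∀ g : Fin k → ℤ, (∏ t, nz (l t) ^ g t) ^ 2 = 1 →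
      ∑ t, A i t * g t = 0 := by
    intro i his
    apply hrb
    intro g hg hrel
    refine cert_rel R M hR hM (fun t => nz (l t) ^ n0) (fun t => ?_) A H D hD hHA hA hH w τ ε δ s
      hw hwε hδ' hε hδ g hg ?_ i his
    · rw [norm_pow, norm_nz, one_pow]
    · rw [prod_pow_zpow, ← pow_mul, mul_comm, pow_mul, hrel, one_pow]
  have h1 : ∀ t : Fin k, (t : ℕ) < s → ∑ i, A t i * g i = 0 := by
    intro t ht
    have h2 := hrel t ht (fun i => n * g i) (by
      have h3 : ∏ i, nz (l i) ^ ((n : ℤ) * g i) = (∏ i, nz (l i) ^ g i) ^ n := by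
        rw [← Finset.prod_pow]
        apply Finset.prod_congr rfl
        intro i _
        rw [mul_comm, zpow_mul, zpow_natCast]
      rw [h3, hg, one_pow])
    have h4 : (n : ℤ) * ∑ i, A t i * g i = 0 := by
      rw [← h2, Finset.mul_sum]
      exact Finset.sum_congr rfl fun i _ => by ring
    rcases mul_eq_zero.mp h4 with h5 | h5
    · exact absurd h5 (by exact_mod_cast hn.ne')
    · exact h5
  have h5 : ∏ i, Wt A s z i ^ g i =
      ∏ t : Fin k, ∏ i, (if (t : ℕ) < s then z t ^ (A t i * g i) else 1) := by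
    simp only [Wt]
    rw [Finset.prod_comm]
    apply Finset.prod_congr rfl
    intro i _
    rw [← Finset.prod_zpow]
    apply Finset.prod_congr rfl
    intro t _
    split_ifs
    · rw [zpow_mul]
    · exact one_zpow _
  rw [h5]
  apply Finset.prod_eq_one
  intro t _
  by_cases ht : (t : ℕ) < s
  · simp only [ht, if_true]
    have hzt : z t ≠ 0 := by
      intro h0
      have := hz t
      rw [h0, norm_zero] at this
      exact zero_ne_one this
    have h6 : ∏ i, z t ^ (A t i * g i) = z t ^ (∑ i, A t i * g i) :=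
      prod_zpow_sum _ _ hzt _
    rw [h6, h1 t ht, zpow_zero]
  · simp [ht]

/-- the relations whose square is trivial are finitely generated -/
private lemma relBound_Rep {k : ℕ} (l : Fin k → ℂ) : ∃ R : ℕ, 1 ≤ R ∧ RelBound k l R := by
  classical
  have hne : ∀ i, nz (l i) ≠ 0 := fun i h => by
    have h1 := norm_nz (l i)
    rw [h, norm_zero] at h1
    exact zero_ne_one h1
  let G : Submodule ℤ (Fin k → ℤ) :=
    { carrier := {g | (∏ i, nz (l i) ^ g i) ^ 2 = 1}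
      add_mem' := by
        intro a b ha hb
        simp only [Set.mem_ofPred_eq] at *
        have h1 : ∏ i, nz (l i) ^ (a + b) i =
            (∏ i, nz (l i) ^ a i) * ∏ i, nz (l i) ^ b i := by
          rw [← Finset.prod_mul_distrib]
          exact Finset.prod_congr rfl fun i _ => by rw [Pi.add_apply, zpow_add₀ (hne i)]
        rw [h1, mul_pow, ha, hb, one_mul]
      zero_mem' := by simp
      smul_mem' := by
        intro n a ha
        simp only [Set.mem_ofPred_eq] at *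
        have h1 : ∏ i, nz (l i) ^ (n • a) i = (∏ i, nz (l i) ^ a i) ^ n := by
          rw [← Finset.prod_zpow]
          refine Finset.prod_congr rfl fun i _ => ?_
          rw [Pi.smul_apply, smul_eq_mul, mul_comm, zpow_mul]
        rw [h1, ← zpow_natCast, ← zpow_mul, mul_comm, zpow_mul, zpow_natCast, ha, one_zpow] }
  obtain ⟨T, hT⟩ : G.FG := IsNoetherian.noetherian G
  refine ⟨1 + ∑ g ∈ T, ∑ i, (g i).natAbs, by omega, fun a ha g hg => ?_⟩
  have h1 : ∀ g ∈ Submodule.span ℤ (T : Set (Fin k → ℤ)), ∑ i, a i * g i = 0 := by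
    intro g hg
    induction hg using Submodule.span_induction with
    | mem x hx =>
      refine ha x (fun i => ?_) ?_
      · have h2 : (x i).natAbs ≤ ∑ i, (x i).natAbs :=
          Finset.single_le_sum (f := fun i => (x i).natAbs) (fun _ _ => Nat.zero_le _)
            (Finset.mem_univ i)
        have h3 : ∑ i, (x i).natAbs ≤ ∑ g ∈ T, ∑ i, (g i).natAbs :=
          Finset.single_le_sum (f := fun g : Fin k → ℤ => ∑ i, (g i).natAbs)
            (fun _ _ => Nat.zero_le _) hx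
        have h4 : |x i| = ((x i).natAbs : ℤ) := Int.abs_eq_natAbs _
        rw [h4]
        exact_mod_cast (by omega : (x i).natAbs ≤ 1 + ∑ g ∈ T, ∑ i, (g i).natAbs)
      · have h2 : x ∈ G := by
          rw [← hT]
          exact Submodule.subset_span hx
        exact h2
    | zero => simp
    | add x y _ _ hx hy =>
      simp only [Pi.add_apply, mul_add, Finset.sum_add_distrib, hx, hy, add_zero]
    | smul n x _ hx =>
      have h2 : ∑ i, a i * (n • x) i = n * ∑ i, a i * x i := by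
        rw [Finset.mul_sum]
        exact Finset.sum_congr rfl fun i _ => by rw [Pi.smul_apply, smul_eq_mul]; ring
      rw [h2, hx, mul_zero]
  exact h1 g (by rw [hT]; exact hg)

/-- PROOF: `class_data0` (in `DD7719/NComplete.lean`) with `c = 0`, `v = 0`, `ex = 0`; `e` from `exists_common_torsion`; `R ≥ 1`
with `RelBound k l R` exists because the integer vectors `g` with `(∏ nz (l i) ^ g i) ^ 2 = 1` form a finitely generated
group (compare `exists_rel_bound`); `Q = 8 k R`, `MH = k ! (Q ^ k + 1) ^ k`, `δ > 0` small, `Q' ≥ 7 / δ`, `Nb = e Q' ^ k`. It gives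
(for the class `j = k`, say) `A, H, D, s, w, τ, x` with `Rep l n0 A s x` and `BaseF` (in both cases). Torsion: from
`e ∣ n0` (as in `frozen_complete` in `FrozenUP/Complete.lean`). The last clause: `norm_Wt`, and if `(∏ (nz (l i) ^ n0) ^ g i) ^ n = 1`
then `(∏ nz (l i) ^ g i) ^ (n0 n) = 1` and `∏ Wt A s z i ^ g i = 1`: this is proved inside `cert_limit`
(`DD7719/CertDef.lean`, the last argument of `kronecker` there; with `cert_rel`); `4 k R (2 / Q) ≤ 1` and
`8 k ^ 3 MH ^ 2 R δ ≤ 1` (choose `δ` accordingly). -/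
theorem exists_rep {k : ℕ} (l : Fin k → ℂ) (hk : 0 < k) : ∃ n0 : ℕ, 0 < n0 ∧
    (∀ i i', l i ≠ 0 → l i' ≠ 0 → ∀ n : ℕ, 0 < n → (l i / l i') ^ (n0 * n) = 1 →
      (l i / l i') ^ n0 = 1) ∧
    ∃ (A : Fin k → Fin k → ℤ) (s : ℕ) (y : Fin k → ℝ), Rep l n0 A s y ∧
      ∀ z : Fin k → ℂ, (∀ t, ‖z t‖ = 1) → (fun i => Wt A s z i) ∈ Tor0 (fun i => nz (l i) ^ n0) := by
  classical
  obtain ⟨e, he, htor⟩ := torsion_Rep l
  obtain ⟨R, hR, hrb⟩ := relBound_Rep l
  obtain ⟨Q, hQ⟩ : ∃ Q : ℕ, Q = 8 * k * R := ⟨_, rfl⟩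
  obtain ⟨MH, hMH⟩ : ∃ MH : ℕ, MH = k.factorial * (Q ^ k + 1) ^ k := ⟨_, rfl⟩
  have hQ0 : 1 ≤ Q := by
    rw [hQ]
    exact Nat.one_le_iff_ne_zero.mpr (by positivity)
  have hMH0 : 1 ≤ MH := by
    rw [hMH]
    exact Nat.one_le_iff_ne_zero.mpr (by positivity)
  obtain ⟨B, hB⟩ : ∃ B : ℕ, B = 8 * k ^ 4 * (Q ^ k + 1) * Q ^ (k + 1) * MH ^ 3 * R := ⟨_, rfl⟩
  have hB0 : 1 ≤ B := by
    rw [hB]
    exact Nat.one_le_iff_ne_zero.mpr (by positivity)
  have hBR : (0 : ℝ) < B := by exact_mod_cast hB0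
  have hkN : 1 ≤ k := hk
  have hpk : ∀ m : ℕ, 1 ≤ k ^ m := fun m => Nat.one_le_pow _ _ hk
  have hpM : ∀ m : ℕ, 1 ≤ MH ^ m := fun m => Nat.one_le_pow _ _ hMH0
  have hpQ : 1 ≤ Q ^ (k + 1) := Nat.one_le_pow _ _ hQ0
  have hpQ' : 1 ≤ Q ^ k + 1 := by omega
  -- the four bounds in natural numbers
  have hB1 : 2 * k * MH ≤ B := by
    rw [hB]
    calc 2 * k * MH = 2 * k ^ 1 * 1 * 1 * MH ^ 1 * 1 := by ring
      _ ≤ 8 * k ^ 4 * (Q ^ k + 1) * Q ^ (k + 1) * MH ^ 3 * R := by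
          gcongr
          · norm_num
          · norm_num
          · norm_num
  have hB2 : k ^ 4 * (Q ^ k + 1) * Q ^ (k + 1) * MH ^ 3 ≤ B := by
    rw [hB]
    calc k ^ 4 * (Q ^ k + 1) * Q ^ (k + 1) * MH ^ 3 =
        1 * k ^ 4 * (Q ^ k + 1) * Q ^ (k + 1) * MH ^ 3 * 1 := by ring
      _ ≤ 8 * k ^ 4 * (Q ^ k + 1) * Q ^ (k + 1) * MH ^ 3 * R := by
          gcongr
          norm_num
  have hB3 : 2 * k * R ≤ B := by
    rw [hB]
    calc 2 * k * R = 2 * k ^ 1 * 1 * 1 * 1 * R := by ring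
      _ ≤ 8 * k ^ 4 * (Q ^ k + 1) * Q ^ (k + 1) * MH ^ 3 * R := by
          gcongr
          · norm_num
          · norm_num
          · exact hpM 3
  have hB4 : 8 * k ^ 3 * MH ^ 2 * R ≤ B := by
    rw [hB]
    calc 8 * k ^ 3 * MH ^ 2 * R = 8 * k ^ 3 * 1 * 1 * MH ^ 2 * R := by ring
      _ ≤ 8 * k ^ 4 * (Q ^ k + 1) * Q ^ (k + 1) * MH ^ 3 * R := by
          gcongr
          · norm_num
          · norm_num
  have key : ∀ N : ℕ, N ≤ B → (N : ℝ) * (1 / (B : ℝ)) ≤ 1 := by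
    intro N hN
    rw [mul_one_div, div_le_one hBR]
    exact_mod_cast hN
  have hδ0 : (0 : ℝ) ≤ 1 / (B : ℝ) := by positivity
  have hδle : 1 / (B : ℝ) ≤ 1 := by
    rw [div_le_one hBR]
    exact_mod_cast hB0
  obtain ⟨n0, hn0, hn0N, hen0, hdata⟩ := class_data0 l (0 : Fin k → ℂ) (fun _ => 0) R Q MH (7 * B) e
    (e * (7 * B) ^ k) hk (fun _ => hk) hR
    (by rw [hQ]; nlinarith [Nat.zero_le (k * R)]) hMH.ge (1 / (B : ℝ)) hδ0
    (by have := key _ hB1; push_cast at this; exact this)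
    (by
      have h1 := key _ hB2
      push_cast at h1
      have h2 : (0 : ℝ) ≤ (k : ℝ) ^ 4 * ((Q : ℝ) ^ k + 1) * (Q : ℝ) ^ (k + 1) * (MH : ℝ) ^ 3 := by
        positivity
      calc (k : ℝ) ^ 4 * ((Q : ℝ) ^ k + 1) * (Q : ℝ) ^ (k + 1) * (MH : ℝ) ^ 3 *
            (1 / (B : ℝ)) ^ 2
          ≤ (k : ℝ) ^ 4 * ((Q : ℝ) ^ k + 1) * (Q : ℝ) ^ (k + 1) * (MH : ℝ) ^ 3 *
            (1 / (B : ℝ)) := by
            apply mul_le_mul_of_nonneg_left _ h2
            rw [sq]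
            exact mul_le_of_le_one_left hδ0 hδle
        _ ≤ 1 := h1)
    (by have := key _ hB3; push_cast at this; exact this)
    (by omega)
    (by
      push_cast
      rw [div_le_div_iff₀ (by positivity) hBR]
      linarith)
    he le_rfl hrb (fun _ => 0) (fun n => by simp)
  refine ⟨n0, hn0, ?_, ?_⟩
  · intro i i' hi hi' n hn h
    have h1 : l i ^ (n0 * n) = l i' ^ (n0 * n) := by
      rw [div_pow, div_eq_one_iff_eq (pow_ne_zero _ hi')] at h
      exact h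
    have h2 := htor i i' ⟨n0 * n, by positivity, h1⟩
    have h3 : (l i / l i') ^ e = 1 := by
      rw [div_pow, h2, div_self (pow_ne_zero _ hi')]
    obtain ⟨r, hr⟩ := hen0
    rw [hr, pow_mul, h3, one_pow]
  · obtain ⟨A, H, D, s, w, τ, x, hrep, hcase⟩ := hdata k le_rfl (by omega)
    have hb : ∃ ρ d, BaseF k l (0 : Fin k → ℂ) (fun _ => 0) MH (e * (7 * B) ^ k) (2 / Q)
        (1 / (B : ℝ)) n0 k A H D s w τ ρ d := by
      rcases hcase with h | ⟨i0, h, _⟩
      · exact ⟨_, _, h⟩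
      · exact ⟨_, _, h⟩
    obtain ⟨ρ, d, -, -, -, -, hs, hD, hDM, hHA, hA, hH, hμ, hw, hwε, -, -, -⟩ := hb
    refine ⟨A, s, x, hrep, fun z hz => ⟨norm_Wt A s z hz, ?_⟩⟩
    rintro g ⟨n, hn, hg⟩
    refine torus_Rep l R MH n0 hR hMH0 hrb A H D s w τ (2 / Q) (1 / (B : ℝ)) hD hHA hA hH hμ hw
      hwε ?_ ?_ z hz g (n0 * n) (by positivity) ?_
    · have hQR : (0 : ℝ) < Q := by exact_mod_cast hQ0
      rw [show 4 * (k : ℝ) * R * (2 / Q) = (8 * k * R) / Q by ring, div_le_one hQR, hQ]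
      push_cast
      exact le_rfl
    · have := key _ hB4
      push_cast at this
      exact this
    · rw [prod_pow_zpow, ← pow_mul] at hg
      exact hg

end Pool.Agent.FixRec
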