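import Pool.Agent.FixRec.Fld

/-! Relations up to torsion are generated by small ones. -/

set_option autoImplicit false

namespace Pool.Agent.FixRec

theorem prod_zpow_add_aux {p : ℕ} (w : Fin p → ℂ) (hw : ∀ i, w i ≠ 0) (g h : Fin p → ℤ) :
    ∏ i, w i ^ (g + h) i = (∏ i, w i ^ g i) * ∏ i, w i ^ h i := by
  rw [← Finset.prod_mul_distrib]
  exact Finset.prod_congr rfl fun i _ => by rw [Pi.add_apply, zpow_add₀ (hw i)]

theorem prod_zpow_neg_aux {p : ℕ} (w : Fin p → ℂ) (g : Fin p → ℤ) :
    ∏ i, w i ^ (-g) i = (∏ i, w i ^ g i)⁻¹ := by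
  rw [← Finset.prod_inv_distrib]
  exact Finset.prod_congr rfl fun i _ => by rw [Pi.neg_apply, zpow_neg]

/-- PROOF: the set of `g` with `IsRel ν g` is an additive subgroup of `Fin p → ℤ` (for the sum
use the product of the exponents `n`), hence finitely generated (`IsNoetherian ℤ (Fin p → ℤ)`; a
submodule over `ℤ`); let `B` bound all entries of the generators. For `w` of absolute value one the
set of `g` with `∏ w ^ g = 1` is a subgroup as well (`zpow_add₀`, `Finset.prod_mul_distrib`), and it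
contains the generators (`Submodule.span_le` or `AddSubgroup.closure_le`). -/
theorem exists_rel_bound {p : ℕ} (ν : Fin p → ℂ) (hν : ∀ i, ‖ν i‖ = 1) : ∃ B : ℕ,
    ∀ w : Fin p → ℂ, (∀ i, ‖w i‖ = 1) →
      (∀ g : Fin p → ℤ, (∀ i, |g i| ≤ B) → IsRel ν g → ∏ i, w i ^ g i = 1) → w ∈ Tor0 ν := by
  have hne : ∀ w : Fin p → ℂ, (∀ i, ‖w i‖ = 1) → ∀ i, w i ≠ 0 := fun w hw i h => by
    have := hw i
    rw [h, norm_zero] at this
    exact zero_ne_one this
  let A : AddSubgroup (Fin p → ℤ) :=
    { carrier := {g | IsRel ν g}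
      zero_mem' := ⟨1, one_pos, by simp⟩
      add_mem' := by
        rintro g h ⟨n, hn, hg⟩ ⟨m, hm, hh⟩
        refine ⟨n * m, Nat.mul_pos hn hm, ?_⟩
        rw [prod_zpow_add_aux ν (hne ν hν), mul_pow, pow_mul, hg, one_pow, one_mul, mul_comm n m,
          pow_mul, hh, one_pow]
      neg_mem' := by
        rintro g ⟨n, hn, hg⟩
        refine ⟨n, hn, ?_⟩
        rw [prod_zpow_neg_aux, inv_pow, hg, inv_one] }
  obtain ⟨S, hS⟩ : (AddSubgroup.toIntSubmodule A).FG := IsNoetherian.noetherian _
  refine ⟨∑ g ∈ S, ∑ i, (g i).natAbs, fun w hw h => ⟨hw, fun g hg => ?_⟩⟩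
  let W : AddSubgroup (Fin p → ℤ) :=
    { carrier := {g | ∏ i, w i ^ g i = 1}
      zero_mem' := by simp
      add_mem' := by
        intro g h hg hh
        change _ = _ at hg hh
        change _ = _
        rw [prod_zpow_add_aux w (hne w hw), hg, hh, one_mul]
      neg_mem' := by
        intro g hg
        change _ = _ at hg
        change _ = _
        rw [prod_zpow_neg_aux, hg, inv_one] }
  have h1 : AddSubgroup.toIntSubmodule A ≤ AddSubgroup.toIntSubmodule W := by
    rw [← hS, Submodule.span_le]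
    intro s hs
    have h2 : s ∈ AddSubgroup.toIntSubmodule A := by
      rw [← hS]
      exact Submodule.subset_span hs
    refine h s (fun i => ?_) h2
    rw [Int.abs_eq_natAbs]
    have h3 : (s i).natAbs ≤ ∑ i, (s i).natAbs :=
      Finset.single_le_sum (f := fun i => (s i).natAbs) (fun _ _ => Nat.zero_le _)
        (Finset.mem_univ i)
    have h4 : ∑ i, (s i).natAbs ≤ ∑ g ∈ S, ∑ i, (g i).natAbs :=
      Finset.single_le_sum (f := fun g : Fin p → ℤ => ∑ i, (g i).natAbs)
        (fun _ _ => Nat.zero_le _) hs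
    exact_mod_cast h3.trans h4
  exact h1 (show g ∈ AddSubgroup.toIntSubmodule A from hg)

end Pool.Agent.FixRec
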