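import Pool.Agent.FixRec.Re

/-! More complements of existential real conditions. -/

set_option autoImplicit false

namespace Pool.Agent.UltPos

open Pool.Agent.PT Pool.Agent.AllR Pool.Agent.DD7719.M Pool.Agent.DD7719 Finset Pool.Agent.FrUP

/-- PROOF: `re_certQ` with `QX` (the term `hX` in the proof of `inForallR_frozen`, `FrozenUP/Lang.lean`), then `RE.exb` and
`RE.aff` as for `hbig` there, with `(2 : ℝ) ^ b x < β 0` (`RE.lt (h2.pow hb) (RF.var (UF.const 1))`); `up_valid`. The functions `aQ`, `uQ`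
agree with `fieldR` below `I.k` (`rootData_congr`). -/
theorem isRE_FX (b : List ISym → ℕ) (hb : UF (fun x _ => b x)) :
    IsRE {w : List ISym | ∃ I : Inst, w = I.enc ∧ ∀ t : ℝ, (2 : ℝ) ^ b w < t →
      ¬ I.FX I.enc.length (fun t => ((I.aQ t : ℚ) : ℝ)) (fun t => ((I.uQ t : ℚ) : ℝ)) t} := by
  obtain ⟨kk, sg, nb, db, hkk, hsg, hnb, hdb, hI⟩ := exists_parser
  have h2 : RF (Γ := ISym) (fun _ _ _ => (2 : ℝ)) :=
    (RF.nat (UF.const 2)).congr fun _ _ _ => by norm_num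
  have hε : RF (Γ := ISym) (fun x _ _ => (2 : ℝ) / ((2 ^ pq x.length : ℕ) : ℝ)) :=
    (h2.div (h2.pow (uf_pq UF.len))).congr fun x e α => by push_cast; rfl
  have hδ : RF (Γ := ISym) (fun x _ _ => (1 : ℝ) / 2 ^ pdl x.length) :=
    RF.one.div (h2.pow (uf_pdl UF.len))
  have hfa : ∀ (I : Inst) (t : ℕ) (ht : t < I.k), fieldR sg nb db 0 I.enc t = (I.a ⟨t, ht⟩ : ℝ) := by
    intro I t ht
    obtain ⟨e1, e2, e3, e4, e5, e6, e7⟩ := hI I
    rw [Inst.a, fieldR]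
    push_cast
    have h3 := congrArg (fun z : ℤ => (z : ℝ)) (e3 ⟨t, ht⟩)
    have h4 := congrArg (fun z : ℤ => (z : ℝ)) (e4 ⟨t, ht⟩)
    simp only at h3 h4
    push_cast at h3 h4
    rw [h3, h4]
  have hfu : ∀ (I : Inst) (t : ℕ) (ht : t < I.k), fieldR sg nb db 1 I.enc t = (I.u ⟨t, ht⟩ : ℝ) := by
    intro I t ht
    obtain ⟨e1, e2, e3, e4, e5, e6, e7⟩ := hI I
    rw [Inst.u, fieldR]
    push_cast
    have h3 := congrArg (fun z : ℤ => (z : ℝ)) (e5 ⟨t, ht⟩)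
    have h4 := congrArg (fun z : ℤ => (z : ℝ)) (e6 ⟨t, ht⟩)
    simp only at h3 h4
    push_cast at h3 h4
    rw [h3, h4]
  have hX := re_certQ (fun x α => QX (kk x) (α 0)) kk
    (fun x => pbm x.length) (fun x => pbn x.length)
    (fieldR sg nb db 0) (fieldR sg nb db 1) _ _ hkk (uf_pbm UF.len) (uf_pbn UF.len)
    (rf_fieldR 0 hsg hnb hdb) (rf_fieldR 1 hsg hnb hdb) hε hδ (fun x α => qX_congr (kk x) (α 0))
    (re_QX kk (fun x => pbm x.length) (fun x => pbn x.length) hkk (uf_pbm UF.len)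
      (uf_pbn UF.len))
  have hbig : RE (Γ := ISym) (fun x _ α => ∃ β : ℕ → ℝ, (2 : ℝ) ^ b x < β 0 ∧
      ∃ (l c : ℕ → ℂ) (ex : ℕ → ℕ), RootData (kk x) (fieldR sg nb db 0 x)
      (fieldR sg nb db 1 x) l c ex ∧ CertQN (kk x) l c ex (pbm x.length) (pbn x.length)
        (2 / ((2 ^ pq x.length : ℕ) : ℝ)) (1 / 2 ^ pdl x.length) (QX (kk x) (β 0))) := by
    refine RE.exb (RE.and ?_ (RE.aff hX 2 1))
    exact RE.lt (h2.pow hb) (RF.var (UF.const 1))
  refine ⟨_, (RE.up up_valid.not).or hbig, fun x => ?_⟩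
  constructor
  · rintro ⟨I, rfl, hno⟩ ⟨α, h4 | h4⟩
    · exact h4 ⟨I, rfl⟩
    · obtain ⟨e1, e2, e3, e4, e5, e6, e7⟩ := hI I
      obtain ⟨β, hβ, l, c, ex, hrd, hc⟩ := h4
      rw [e1] at hrd hc
      refine hno (β 0) hβ ⟨l, c, ex, ?_, hc⟩
      refine rootData_congr ?_ ?_ hrd
      · intro t ht
        rw [hfa I t ht]
        simp only [Inst.aQ, ht, dif_pos]
      · intro t ht
        rw [hfu I t ht]
        simp only [Inst.uQ, ht, dif_pos]
  · intro h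
    have h1 : ∃ I : Inst, x = I.enc := by
      by_contra hcon
      exact h ⟨fun _ => 0, Or.inl hcon⟩
    obtain ⟨I, rfl⟩ := h1
    obtain ⟨e1, e2, e3, e4, e5, e6, e7⟩ := hI I
    refine ⟨I, rfl, fun t ht hFX => h ⟨fun _ => 0, Or.inr ⟨fun _ => t, ht, ?_⟩⟩⟩
    obtain ⟨l, c, ex, hrd, hc⟩ := hFX
    rw [e1]
    refine ⟨l, c, ex, ?_, hc⟩
    refine rootData_congr ?_ ?_ hrd
    · intro t ht
      rw [hfa I t ht]
      simp only [Inst.aQ, ht, dif_pos]
    · intro t ht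
      rw [hfu I t ht]
      simp only [Inst.uQ, ht, dif_pos]

/-- PROOF: see `inForallR_noncritical` (`DD7719/Final.lean` or where it is proved) or `hkey`, `hcert` in `inForallR_fixed`
(`DD7719/MLang.lean`): `Inst.cert_iff`, `re_cert`, `up_valid`. -/
theorem isRE_noncritical :
    IsRE {w : List ISym | ∃ I : Inst, w = I.enc ∧ I.UltimatelyPositive ∧ ¬ I.CriticalM} := by
  obtain ⟨kk, sg, nb, db, hkk, hsg, hnb, hdb, hI⟩ := exists_parser
  have h2 : RF (Γ := ISym) (fun _ _ _ => (2 : ℝ)) :=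
    (RF.nat (UF.const 2)).congr fun _ _ _ => by norm_num
  have hε : RF (Γ := ISym) (fun x _ _ => (2 : ℝ) / ((2 ^ pq x.length : ℕ) : ℝ)) :=
    (h2.div (h2.pow (uf_pq UF.len))).congr fun x e α => by push_cast; rfl
  have hδ : RF (Γ := ISym) (fun x _ _ => (1 : ℝ) / 2 ^ pdl x.length) :=
    RF.one.div (h2.pow (uf_pdl UF.len))
  have hcert := re_cert kk (fun x => pbm x.length) (fun x => pbn x.length)
    (fieldR sg nb db 0) (fieldR sg nb db 1) _ _ hkk (uf_pbm UF.len) (uf_pbn UF.len)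
    (rf_fieldR 0 hsg hnb hdb) (rf_fieldR 1 hsg hnb hdb) hε hδ
  refine ⟨_, (RE.up up_valid.not).or hcert, fun x => ?_⟩
  have hkey : ∀ I : Inst, (¬ (I.UltimatelyPositive ∧ ¬ I.CriticalM)) ↔ ∃ (l c : ℕ → ℂ) (ex : ℕ → ℕ),
      RootData (kk I.enc) (fieldR sg nb db 0 I.enc) (fieldR sg nb db 1 I.enc) l c ex ∧
      CertN (kk I.enc) l c ex (pbm I.enc.length) (pbn I.enc.length)
        (2 / ((2 ^ pq I.enc.length : ℕ) : ℝ)) (1 / 2 ^ pdl I.enc.length) := by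
    intro I
    obtain ⟨e1, e2, e3, e4, e5, e6, e7⟩ := hI I
    rw [e1]
    apply I.cert_iff I.enc.length e2 (fun i => ⟨(e7 i).1.le, (e7 i).2.1.le⟩)
    · intro t ht
      rw [Inst.a, fieldR]
      push_cast
      have h3 := congrArg (fun z : ℤ => (z : ℝ)) (e3 ⟨t, ht⟩)
      have h4 := congrArg (fun z : ℤ => (z : ℝ)) (e4 ⟨t, ht⟩)
      simp only at h3 h4
      push_cast at h3 h4
      rw [h3, h4]
    · intro t ht
      rw [Inst.u, fieldR]
      push_cast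
      have h3 := congrArg (fun z : ℤ => (z : ℝ)) (e5 ⟨t, ht⟩)
      have h4 := congrArg (fun z : ℤ => (z : ℝ)) (e6 ⟨t, ht⟩)
      simp only at h3 h4
      push_cast at h3 h4
      rw [h3, h4]
  constructor
  · rintro ⟨I, rfl, h1, h2⟩ ⟨α, h3 | h3⟩
    · exact h3 ⟨I, rfl⟩
    · exact (hkey I).mpr h3 ⟨h1, h2⟩
  · intro h
    have h1 : ∃ I : Inst, x = I.enc := by
      by_contra hcon
      exact h ⟨fun _ => 0, Or.inl hcon⟩
    obtain ⟨I, rfl⟩ := h1
    have h2 : I.UltimatelyPositive ∧ ¬ I.CriticalM := by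
      by_contra hcon
      exact h ⟨fun _ => 0, Or.inr ((hkey I).mp hcon)⟩
    exact ⟨I, rfl, h2.1, h2.2⟩

end Pool.Agent.UltPos
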