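import Pool.Agent.FixRec.Inst
import Pool.Agent.FixRec.Re2
import Pool.Agent.DD7719.Assemble

/-! Positivity of frozen positive recurrences with fixed coefficients. -/

set_option autoImplicit false

namespace Pool.Agent.UltPos

open Pool.Agent.PT Pool.Agent.AllR Pool.Agent.DD7719.M Pool.Agent.DD7719 Finset Pool.Agent.FrUP

/-- the condition defining the language: the terms with index below `2 ^ ((L + 2) ^ 2)` are positive and
there is no certificate against frozen positivity beyond `2 ^ ((L + 2) ^ 2)` -/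
def Inst.InP (I : Inst) : Prop :=
  (∀ v, I.IsSeq v → ∀ n, n < 2 ^ ((I.enc.length + 2) ^ 2) → 0 < v n) ∧
  ∀ t : ℝ, (2 : ℝ) ^ ((I.enc.length + 2) ^ 2) < t →
    ¬ I.FX I.enc.length (fun t => ((I.aQ t : ℚ) : ℝ)) (fun t => ((I.uQ t : ℚ) : ℝ)) t

/-- PROOF: `isRE_small`, `isRE_FX` with `b w = (w.length + 2) ^ 2` (`UF.len`, `UF.mul`), `IsRE.inter`, `enc_injective`. -/
theorem isRE_InP : IsRE {w : List ISym | ∃ I : Inst, w = I.enc ∧ I.InP} := by
  have hb : UF (Γ := ISym) (fun x _ => (x.length + 2) ^ 2) :=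
    ((UF.len.add (UF.const 2)).mul (UF.len.add (UF.const 2))).congr fun x e => by
      simp only [pow_two]
  have h1 := (isRE_small (fun w => (w.length + 2) ^ 2) hb).inter
    (isRE_FX (fun w => (w.length + 2) ^ 2) hb)
  have h2 : {w : List ISym | ∃ I : Inst, w = I.enc ∧ I.InP} =
      {w : List ISym | ∃ I : Inst, w = I.enc ∧ ∀ v, I.IsSeq v → ∀ n,
        n < 2 ^ ((w.length + 2) ^ 2) → 0 < v n} ∩
      {w : List ISym | ∃ I : Inst, w = I.enc ∧ ∀ t : ℝ, (2 : ℝ) ^ ((w.length + 2) ^ 2) < t →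
      ¬ I.FX I.enc.length (fun t => ((I.aQ t : ℚ) : ℝ)) (fun t => ((I.uQ t : ℚ) : ℝ)) t} := by
    ext w
    constructor
    · rintro ⟨I, rfl, h3, h4⟩
      exact ⟨⟨I, rfl, h3⟩, ⟨I, rfl, h4⟩⟩
    · rintro ⟨⟨I, rfl, h3⟩, ⟨J, h5, h4⟩⟩
      obtain rfl := enc_injective h5
      exact ⟨I, rfl, h3, h4⟩
  rw [h2]
  exact h1

private theorem aux_a (I : Inst) (t : ℕ) (h : t < I.k) :
    ((fun t => ((I.aQ t : ℚ) : ℝ)) t) = (I.a ⟨t, h⟩ : ℝ) := by
  simp only [Inst.aQ, h, dif_pos]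

private theorem aux_u (I : Inst) (t : ℕ) (h : t < I.k) :
    ((fun t => ((I.uQ t : ℚ) : ℝ)) t) = (I.u ⟨t, h⟩ : ℝ) := by
  simp only [Inst.uQ, h, dif_pos]

private theorem aux_size (I : Inst) : I.k ≤ I.enc.length ∧
    ∀ i : Fin I.k, (I.aNum i).natAbs ≤ 2 ^ I.enc.length ∧ I.aDen i ≤ 2 ^ I.enc.length := by
  obtain ⟨kk, sg, nb, db, -, -, -, -, hI⟩ := exists_parser
  obtain ⟨-, e2, -, -, -, -, e7⟩ := hI I
  exact ⟨e2, fun i => ⟨(e7 i).1.le, (e7 i).2.1.le⟩⟩

/-- PROOF: `Inst.frozenPositive_of_no` with `L = I.enc.length`, `T0 = 2 ^ ((L + 2) ^ 2)`, `exists_unique_seq`; sizes from the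
last clause of `exists_parser`. -/
theorem Inst.InP.frozenPositive {I : Inst} (h : I.InP) : I.FrozenPositive := by
  obtain ⟨v, hv, -⟩ := I.exists_unique_seq
  exact I.frozenPositive_of_no I.enc.length (aux_size I).1 (aux_size I).2 _ _ (aux_a I) (aux_u I)
    v hv _ h.2

/-- PROOF: suppose `I.FX ... t` with `t > 2 ^ (κ (L + 1))`; the argument of `Inst.bounded_FX` (`FrozenUP/Lang.lean`):
`certX_sound` gives `η > 0` such that for `|x - t| < η` the sequence frozen at `x` (for the root data of the certificate) is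
not ultimately positive; choose a rational `x` in `(t, t + η)`. The frozen sequences do not depend on the root data
(`frozen_rp`, `frozen_unique`, `isExpansion_rp`), contradiction. -/
theorem Inst.no_FX (I : Inst) (T : ℝ) (h : ∃ (l c : ℕ → ℂ) (ex : ℕ → ℕ),
      RootData I.k (fun t => ((I.aQ t : ℚ) : ℝ)) (fun t => ((I.uQ t : ℚ) : ℝ)) l c ex ∧
      ∀ x : ℚ, T < x → ∃ N : ℕ, ∀ n, N ≤ n →
        0 < (fs (fun i : Fin I.k => l i) (fun i => c i) (fun i => ex i) (x : ℝ) n).re) (t : ℝ)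
    (ht : T < t) :
    ¬ I.FX I.enc.length (fun t => ((I.aQ t : ℚ) : ℝ)) (fun t => ((I.uQ t : ℚ) : ℝ)) t := by
  rintro ⟨l, c, ex, hrd, hcert⟩
  obtain ⟨l', c', ex', hrd', hup⟩ := h
  obtain ⟨hkL, hb⟩ := aux_size I
  obtain ⟨v, hv, -⟩ := I.exists_unique_seq
  have hexp := isExpansion_rp (fun i : Fin I.k => l i) (fun i => c i) (fun i => ex i)
    (fun i => hrd.1 i i.2) v (I.all' _ _ (aux_a I) (aux_u I) v hv hrd)
  have hexp' := isExpansion_rp (fun i : Fin I.k => l' i) (fun i => c' i) (fun i => ex' i)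
    (fun i => hrd'.1 i i.2) v (I.all' _ _ (aux_a I) (aux_u I) v hv hrd')
  obtain ⟨η, hη, hs⟩ := certX_sound (k := I.k) (fun i => l i) (fun i => c i) (fun i => ex i)
    (2 ^ pr I.enc.length) (2 ^ pbm I.enc.length) (2 ^ pbn I.enc.length) _ _ I.kpos
    (fun i => hrd.1 i i.2)
    (fun i e he => hrd.closed i e he) Nat.one_le_two_pow Nat.one_le_two_pow
    (I.relBound' I.enc.length hkL hb _ _ (aux_a I) hrd) (peps hkL) (pd1 hkL) t
    (certQX_toF (fun i hi => hrd.1 i hi) hcert)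
  obtain ⟨x, hx1, hx2⟩ := exists_rat_btwn (show t < t + η by linarith)
  obtain ⟨N, hN⟩ := hup x (by linarith)
  obtain ⟨n, hn, hle⟩ := hs x (by
    rw [abs_lt]
    constructor <;> linarith) N
  have h1 := hN n hn
  rw [← frozen_rp, frozen, frozen_unique hexp' hexp] at h1
  rw [← frozen_rp, frozen] at hle
  linarith

/-- **Fixed recurrences.** One language in `∀ℝ` agrees, for every list of coefficients and for all but
finitely many initial values, with positivity and frozen positivity.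
PROOF: `P = {I.enc | I.InP}`. Given `a`, let `κ` be from `fixed_data a`. If `I.enc.length ≥ κ` then `κ (L + 1) < (L + 2) ^ 2`. For such
`I`: `InP` gives frozen positivity, then `fixed_data` positivity beyond `2 ^ (κ (L + 1))`. Conversely `Inst.no_FX`. The exceptional
words have length `< κ`: `List.finite_length_lt`. -/
theorem fixed_main : ∃ P : Set (List ISym), InForallR P ∧
    (∀ w ∈ P, ∃ I : Inst, w = I.enc ∧ I.FrozenPositive) ∧
    ∀ a : List ℚ, {w : List ISym | ∃ I : Inst, w = I.enc ∧ List.ofFn I.a = a ∧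
      ¬ (w ∈ P ↔ I.Positive ∧ I.FrozenPositive)}.Finite := by
  refine ⟨{w : List ISym | ∃ I : Inst, w = I.enc ∧ I.InP}, isRE_InP.inForallR, ?_, ?_⟩
  · rintro w ⟨I, rfl, hI⟩
    exact ⟨I, rfl, hI.frozenPositive⟩
  intro a
  obtain ⟨κ, hκ⟩ := fixed_data a
  refine (List.finite_length_lt ISym κ).subset ?_
  rintro w ⟨I, rfl, ha, hne⟩
  by_contra hL
  simp only [Set.mem_setOf_eq, not_lt] at hL
  have hlt : κ * (I.enc.length + 1) < (I.enc.length + 2) ^ 2 := by nlinarith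
  have hltN : 2 ^ (κ * (I.enc.length + 1)) < 2 ^ ((I.enc.length + 2) ^ 2) :=
    Nat.pow_lt_pow_right (by norm_num) hlt
  have hltR : (2 : ℝ) ^ (κ * (I.enc.length + 1)) < (2 : ℝ) ^ ((I.enc.length + 2) ^ 2) :=
    pow_lt_pow_right₀ (by norm_num) hlt
  apply hne
  constructor
  · rintro ⟨J, hJ, hJP⟩
    obtain rfl := enc_injective hJ
    have hfp := hJP.frozenPositive
    refine ⟨fun v hv n => ?_, hfp⟩
    rcases lt_or_ge n (2 ^ ((I.enc.length + 2) ^ 2)) with h | h
    · exact hJP.1 v hv n h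
    · exact (hκ I ha hfp).2 v hv n (hltN.trans_le h)
  · rintro ⟨hpos, hfp⟩
    refine ⟨I, rfl, fun v hv n _ => hpos v hv n, fun t ht => ?_⟩
    obtain ⟨l, c, ex, hrd, hx⟩ := (hκ I ha hfp).1
    exact I.no_FX _ ⟨l, c, ex, hrd, hx⟩ t (hltR.trans ht)

/-- PROOF: `isRE_list a`, `isRE_frozen`, `isRE_small` with `b w = κ (w.length + 1) + 1`, intersection; `fixed_data`. -/
theorem fixed_frozen (a : List ℚ) : InForallR {w : List ISym | ∃ I : Inst, w = I.enc ∧
    List.ofFn I.a = a ∧ I.Positive ∧ I.FrozenPositive} := by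
  obtain ⟨κ, hκ⟩ := fixed_data a
  have hb : UF (Γ := ISym) (fun x _ => κ * (x.length + 1) + 1) :=
    ((UF.const κ).mul (UF.len.add (UF.const 1))).add (UF.const 1)
  have h1 := ((isRE_list a).inter isRE_frozen).inter
    (isRE_small (fun w => κ * (w.length + 1) + 1) hb)
  have h2 : {w : List ISym | ∃ I : Inst, w = I.enc ∧
      List.ofFn I.a = a ∧ I.Positive ∧ I.FrozenPositive} =
      ({w : List ISym | ∃ I : Inst, w = I.enc ∧ List.ofFn I.a = a} ∩
        {w : List ISym | ∃ I : Inst, w = I.enc ∧ I.FrozenPositive}) ∩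
      {w : List ISym | ∃ I : Inst, w = I.enc ∧ ∀ v, I.IsSeq v → ∀ n,
        n < 2 ^ (κ * (w.length + 1) + 1) → 0 < v n} := by
    ext w
    constructor
    · rintro ⟨I, rfl, h3, h4, h5⟩
      exact ⟨⟨⟨I, rfl, h3⟩, ⟨I, rfl, h5⟩⟩, ⟨I, rfl, fun v hv n _ => h4 v hv n⟩⟩
    · rintro ⟨⟨⟨I, rfl, h3⟩, ⟨J, hJ, h5⟩⟩, ⟨K, hK, h4⟩⟩
      obtain rfl := enc_injective hJ
      obtain rfl := enc_injective hK
      refine ⟨I, rfl, h3, fun v hv n => ?_, h5⟩
      rcases lt_or_ge n (2 ^ (κ * (I.enc.length + 1) + 1)) with h | h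
      · exact h4 v hv n h
      · exact (hκ I h3 h5).2 v hv n
          (lt_of_lt_of_le (Nat.pow_lt_pow_right (by norm_num) (Nat.lt_succ_self _)) h)
  rw [h2]
  exact h1.inForallR

/-- PROOF: as `fixed_frozen` with `isRE_noncritical` instead of `isRE_frozen`; `frozenPositive_of_not_critical`
(`FrozenUP/Final.lean`), `Inst.critical_ofM` (see the result file `FrozenUP.lean`) and its converse for `CriticalM ↔ Critical`. -/
theorem fixed_noncritical (a : List ℚ) : InForallR {w : List ISym | ∃ I : Inst, w = I.enc ∧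
    List.ofFn I.a = a ∧ I.Positive ∧ ¬ I.Critical} := by
  obtain ⟨κ, hκ⟩ := fixed_data a
  have hb : UF (Γ := ISym) (fun x _ => κ * (x.length + 1) + 1) :=
    ((UF.const κ).mul (UF.len.add (UF.const 1))).add (UF.const 1)
  have h1 := ((isRE_list a).inter isRE_noncritical).inter
    (isRE_small (fun w => κ * (w.length + 1) + 1) hb)
  have h2 : {w : List ISym | ∃ I : Inst, w = I.enc ∧
      List.ofFn I.a = a ∧ I.Positive ∧ ¬ I.Critical} =
      ({w : List ISym | ∃ I : Inst, w = I.enc ∧ List.ofFn I.a = a} ∩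
        {w : List ISym | ∃ I : Inst, w = I.enc ∧ I.UltimatelyPositive ∧ ¬ I.CriticalM}) ∩
      {w : List ISym | ∃ I : Inst, w = I.enc ∧ ∀ v, I.IsSeq v → ∀ n,
        n < 2 ^ (κ * (w.length + 1) + 1) → 0 < v n} := by
    ext w
    constructor
    · rintro ⟨I, rfl, h3, h4, h5⟩
      have hup : I.UltimatelyPositive := fun v hv => ⟨0, fun n _ => h4 v hv n⟩
      exact ⟨⟨⟨I, rfl, h3⟩, ⟨I, rfl, hup, fun hM => h5 (Inst.critical_ofM hup hM)⟩⟩,
        ⟨I, rfl, fun v hv n _ => h4 v hv n⟩⟩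
    · rintro ⟨⟨⟨I, rfl, h3⟩, ⟨J, hJ, hup, hnc⟩⟩, ⟨K, hK, h4⟩⟩
      obtain rfl := enc_injective hJ
      obtain rfl := enc_injective hK
      have hfp := Inst.frozenPositive_of_not_critical hup hnc
      refine ⟨I, rfl, h3, fun v hv n => ?_, fun hC => hnc (Inst.critical_toM hC)⟩
      rcases lt_or_ge n (2 ^ (κ * (I.enc.length + 1) + 1)) with h | h
      · exact h4 v hv n h
      · exact (hκ I h3 hfp).2 v hv n
          (lt_of_lt_of_le (Nat.pow_lt_pow_right (by norm_num) (Nat.lt_succ_self _)) h)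
  rw [h2]
  exact h1.inForallR

end Pool.Agent.UltPos
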