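import Pool.Agent.MX.ElimMin

/-! Bounds for `BdD`. -/

set_option autoImplicit false

namespace Pool.Agent.FixRec

open Pool.Agent.MX Pool.Agent.RElim Complex

/-- PROOF: `BdD_le` with exponent `E' = 20 (p + 1) (B + 1) + 4 Hc + 2 E`: the exponent of `2` is
linear in `Hc`. -/
theorem bd_lin (p B E Dg : ℕ) : ∃ κ : ℕ, ∀ Hc : ℕ, BdD (4 * (p * B + E + 2)) (2 * p + 2)
      (2 ^ (20 * (p + 1) * (B + 1) + 4 * Hc + 2 * E)) ^ Dg ≤ 2 ^ (κ * (Hc + 1)) := by
  set D := 4 * (p * B + E + 2) with hD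
  set n := 2 * p + 2 with hn
  set N := (D + 1) ^ n with hN
  set E₀ := 20 * (p + 1) * (B + 1) + 2 * E with hE₀
  refine ⟨(N * N + ((D + E₀ + 5) * (D * n + 1) + 1) * N) * Dg, fun Hc => ?_⟩
  have h1 := BdD_le D n (2 ^ (20 * (p + 1) * (B + 1) + 4 * Hc + 2 * E))
    (20 * (p + 1) * (B + 1) + 4 * Hc + 2 * E) le_rfl
  have h2 : 20 * (p + 1) * (B + 1) + 4 * Hc + 2 * E = E₀ + 4 * Hc := by omega
  rw [h2] at h1 ⊢
  calc BdD D n (2 ^ (E₀ + 4 * Hc)) ^ Dg
      ≤ (2 ^ (N * N + ((D + (E₀ + 4 * Hc) + 1) * (D * n + 1) + 1) * N)) ^ Dg :=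
        Nat.pow_le_pow_left h1 _
    _ = 2 ^ ((N * N + ((D + (E₀ + 4 * Hc) + 1) * (D * n + 1) + 1) * N) * Dg) := by rw [← pow_mul]
    _ ≤ _ := by
        refine Nat.pow_le_pow_right (by norm_num) ?_
        have h3 : D + (E₀ + 4 * Hc) + 1 ≤ (D + E₀ + 5) * (Hc + 1) := by nlinarith
        have h4 : (D + (E₀ + 4 * Hc) + 1) * (D * n + 1) + 1 ≤
            ((D + E₀ + 5) * (D * n + 1) + 1) * (Hc + 1) := by
          have h5 := Nat.mul_le_mul_right (D * n + 1) h3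
          have h6 : (D + E₀ + 5) * (Hc + 1) * (D * n + 1) =
            (D + E₀ + 5) * (D * n + 1) * (Hc + 1) := by ring
          rw [h6] at h5
          have h7 : ((D + E₀ + 5) * (D * n + 1) + 1) * (Hc + 1) =
            (D + E₀ + 5) * (D * n + 1) * (Hc + 1) + (Hc + 1) := by ring
          omega
        have h8 : N * N + ((D + (E₀ + 4 * Hc) + 1) * (D * n + 1) + 1) * N ≤
            (N * N + ((D + E₀ + 5) * (D * n + 1) + 1) * N) * (Hc + 1) := by
          have h9 := Nat.mul_le_mul_right N h4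
          have h10 : N * N ≤ N * N * (Hc + 1) := Nat.le_mul_of_pos_right _ (Nat.succ_pos _)
          have h11 : (N * N + ((D + E₀ + 5) * (D * n + 1) + 1) * N) * (Hc + 1) =
            N * N * (Hc + 1) + ((D + E₀ + 5) * (D * n + 1) + 1) * (Hc + 1) * N := by ring
          rw [h11]
          exact add_le_add h10 h9
        calc (N * N + ((D + (E₀ + 4 * Hc) + 1) * (D * n + 1) + 1) * N) * Dg
            ≤ (N * N + ((D + E₀ + 5) * (D * n + 1) + 1) * N) * (Hc + 1) * Dg :=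
              Nat.mul_le_mul_right _ h8
          _ = (N * N + ((D + E₀ + 5) * (D * n + 1) + 1) * N) * Dg * (Hc + 1) := by ring

/-- PROOF: as `final_exp` in `MX/ElimMin.lean` (with `BdD_le`, `total_le` or directly). -/
theorem bd_poly (s : ℕ) : ∃ C : ℕ, ∀ p B E Dg Hc : ℕ, p ≤ s →
    BdD (4 * (p * B + E + 2)) (2 * p + 2)
      (2 ^ (20 * (p + 1) * (B + 1) + 4 * Hc + 2 * E)) ^ Dg ≤ 2 ^ ((2 + B + E + Dg + Hc) ^ C) := by
  refine ⟨((s + 4) * (2 * s + 2) + s + 8) * 8, ?_⟩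
  intro p B E₁ Dg Hc hp
  set M := 2 + B + E₁ + Dg + Hc with hM
  set K := (s + 4) * (2 * s + 2) + s + 8 with hK
  set D := 4 * (p * B + E₁ + 2) with hD
  set n := 2 * p + 2 with hn
  set E := 20 * (p + 1) * (B + 1) + 4 * Hc + 2 * E₁ with hE
  have hM2 : 2 ≤ M := by omega
  have hpow : ∀ i j : ℕ, i ≤ j → M ^ i ≤ M ^ j := fun i j h => Nat.pow_le_pow_right (by omega) h
  have hs2 : s + 1 ≤ M ^ s := by
    calc s + 1 ≤ 2 ^ s := Nat.lt_two_pow_self
      _ ≤ M ^ s := Nat.pow_le_pow_left hM2 _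
  have hZ : 2 ≤ M ^ K := by
    calc 2 ≤ M := hM2
      _ ≤ M ^ K := Nat.le_self_pow (by omega) M
  have hD1 : D + 1 ≤ M ^ (s + 4) := by
    have h1 : p * B ≤ s * M := Nat.mul_le_mul hp (by omega)
    have h2 : D + 1 ≤ 8 * ((s + 1) * M) := by
      have h3 : E₁ + 2 ≤ M := by omega
      have h4 : (s + 1) * M = s * M + M := by ring
      rw [h4]
      omega
    calc D + 1 ≤ 8 * ((s + 1) * M) := h2
      _ ≤ M ^ 3 * (M ^ s * M) := by
          refine Nat.mul_le_mul ?_ (Nat.mul_le_mul_right _ hs2)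
          calc 8 = 2 ^ 3 := by norm_num
            _ ≤ M ^ 3 := Nat.pow_le_pow_left hM2 _
      _ = M ^ (s + 4) := by ring
  have hn1 : n ≤ 2 * s + 2 := by omega
  have hN1 : (D + 1) ^ n ≤ M ^ ((s + 4) * (2 * s + 2)) := by
    calc (D + 1) ^ n ≤ (D + 1) ^ (2 * s + 2) := Nat.pow_le_pow_right (by omega) hn1
      _ ≤ (M ^ (s + 4)) ^ (2 * s + 2) := Nat.pow_le_pow_left hD1 _
      _ = M ^ ((s + 4) * (2 * s + 2)) := by rw [← pow_mul]
  have hE1 : E ≤ M ^ (s + 8) := by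
    have h1 : (p + 1) * (B + 1) ≤ (s + 1) * M := Nat.mul_le_mul (by omega) (by omega)
    have h2 : Hc ≤ (s + 1) * M := by
      calc Hc ≤ M := by omega
        _ ≤ (s + 1) * M := Nat.le_mul_of_pos_left _ (by omega)
    have h2' : E₁ ≤ (s + 1) * M := by
      calc E₁ ≤ M := by omega
        _ ≤ (s + 1) * M := Nat.le_mul_of_pos_left _ (by omega)
    have h3 : E ≤ 32 * ((s + 1) * M) := by
      have h4 : E = 20 * ((p + 1) * (B + 1)) + 4 * Hc + 2 * E₁ := by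
        rw [hE, mul_assoc]
      rw [h4]
      omega
    calc E ≤ 32 * ((s + 1) * M) := h3
      _ ≤ M ^ 5 * (M ^ s * M) := by
          refine Nat.mul_le_mul ?_ (Nat.mul_le_mul_right _ hs2)
          calc 32 = 2 ^ 5 := by norm_num
            _ ≤ M ^ 5 := Nat.pow_le_pow_left hM2 _
      _ = M ^ (s + 6) := by ring
      _ ≤ M ^ (s + 8) := hpow _ _ (by omega)
  have hMK : M ≤ M ^ K := Nat.le_self_pow (by omega) M
  have hnK : n ≤ M ^ K := by
    calc n ≤ 2 * (s + 1) := by omega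
      _ ≤ M * M ^ s := Nat.mul_le_mul hM2 hs2
      _ = M ^ (s + 1) := by ring
      _ ≤ M ^ K := hpow _ _ (by omega)
  have key := total_le D n ((D + 1) ^ n) E Hc Dg (M ^ K) hZ (hD1.trans (hpow _ _ (by
    have : s + 4 ≤ (s + 4) * (2 * s + 2) := Nat.le_mul_of_pos_right _ (by omega)
    omega))) hnK (hN1.trans (hpow _ _ (by omega))) (hE1.trans (hpow _ _ (by omega)))
    ((by omega : Hc + 1 ≤ M).trans hMK) ((by omega : Dg ≤ M).trans hMK)
  calc BdD D n (2 ^ E) ^ Dg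
      ≤ (2 ^ ((D + 1) ^ n * (D + 1) ^ n +
          ((D + E + 1) * (D * n + 1) + 1) * (D + 1) ^ n)) ^ Dg :=
        Nat.pow_le_pow_left (BdD_le D n (2 ^ E) E le_rfl) _
    _ = 2 ^ (((D + 1) ^ n * (D + 1) ^ n +
          ((D + E + 1) * (D * n + 1) + 1) * (D + 1) ^ n) * Dg) := by
        rw [← pow_mul]
    _ ≤ 2 ^ ((M ^ K) ^ 8) := Nat.pow_le_pow_right (by norm_num) (by omega)
    _ = 2 ^ (M ^ (K * 8)) := by rw [← pow_mul]

end Pool.Agent.FixRec
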