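import Pool.Agent.FixRec.Fld

/-! Sizes of the coefficients. -/

set_option autoImplicit false

namespace Pool.Agent.FixRec

open Complex Pool.Agent.DD7719.M Pool.Agent.FrUP

/-- The coefficients of the solutions of a fixed recurrence: linear in the initial values.
PROOF: `M = vmat k (fun i => (l i, ex i))` is invertible (`RootData.det_ne_zero`), its entries and those of
its inverse lie in `F`; put `c = M⁻¹ u` (see `rootData_bounded` in `DD7719/TCoef.lean` for the translation between
the last clause of `RootData` and `vmat`). The inverse has a common denominator `d0` (`exists_denominator` in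
`DD7719/SubSpace.lean`) and bounded conjugates (finitely many). With `u n = num n / den n`, `D0 = d0 * ∏ den
n ≤ d0 * 2 ^ (k L)`; the conjugates of `c i` are at most `k * g0 * 2 ^ L` (`φ` of a rational number is the
number). The first three clauses of `RootData` do not contain `c`, `u` (extend `c` by `0`). -/
theorem exists_coef (k : ℕ) (a u0 : ℕ → ℝ) (l c0 : ℕ → ℂ) (ex : ℕ → ℕ)
    (h : RootData k a u0 l c0 ex) (F : IntermediateField ℚ ℂ) (hF : FD F (fun i : Fin k => l i)) :
    ∃ κ : ℕ, ∀ (L : ℕ) (num : ℕ → ℤ) (den : ℕ → ℕ), (∀ t, t < k → 0 < den t) →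
      (∀ t, t < k → (num t).natAbs ≤ 2 ^ L) → (∀ t, t < k → den t ≤ 2 ^ L) → ∀ u : ℕ → ℝ,
      (∀ t, t < k → u t = (num t : ℝ) / (den t : ℝ)) →
      ∃ c : ℕ → ℂ, RootData k a u l c ex ∧ CB F (fun i : Fin k => c i) (κ * (L + 1)) := by
  classical
  have := hF.fin
  have : NumberField F := ⟨⟩
  -- the confluent Vandermonde matrix over F
  let lF : Fin k → F := fun i => ⟨l i, hF.hl i⟩
  let VF : Matrix (Fin k) (Fin k) F :=
    fun n i => ((n : ℕ).choose (ex i) : F) * (lF i) ^ ((n : ℕ) - ex i)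
  have hVF : ∀ n i, ((VF n i : F) : ℂ) = vmat k (fun i => (l i, ex i)) n i := by
    intro n i
    simp only [VF, vmat, lF]
    push_cast
    rfl
  have hmap : vmat k (fun i => (l i, ex i)) = VF.map (algebraMap F ℂ) := by
    ext n i
    rw [Matrix.map_apply, ← hVF]
    rfl
  have hdet : VF.det ≠ 0 := by
    intro h0
    apply h.det_ne_zero
    rw [hmap]
    have h1 : ((algebraMap F ℂ).mapMatrix VF).det = algebraMap F ℂ VF.det :=
      (RingHom.map_det (algebraMap F ℂ) VF).symm
    rw [h0, map_zero] at h1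
    exact h1
  let WF : Matrix (Fin k) (Fin k) F := VF⁻¹
  have hVW : VF * WF = 1 := Matrix.mul_nonsing_inv _ (isUnit_iff_ne_zero.mpr hdet)
  obtain ⟨d0, hd0, hd0i⟩ := Pool.Agent.DD7719.exists_denominator (K := F) (fun J : Fin k × Fin k => WF J.1 J.2)
  obtain ⟨g0, hg0⟩ : ∃ g0 : ℕ, ∀ (φ : F →ₐ[ℚ] ℂ) (i n : Fin k), ‖φ (WF i n)‖ ≤ g0 := by
    obtain ⟨g0, hg0⟩ := exists_nat_ge
      (∑ x : (F →ₐ[ℚ] ℂ) × Fin k × Fin k, ‖x.1 (WF x.2.1 x.2.2)‖)
    refine ⟨g0, fun φ i n => le_trans ?_ hg0⟩
    exact Finset.single_le_sum (f := fun x : (F →ₐ[ℚ] ℂ) × Fin k × Fin k =>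
      ‖x.1 (WF x.2.1 x.2.2)‖) (fun x _ => norm_nonneg _) (Finset.mem_univ (φ, i, n))
  refine ⟨k + d0 + k * g0, ?_⟩
  intro L num den hden hnum hdenL u hu
  -- the rational initial values
  let q : Fin k → ℚ := fun n => (num n : ℚ) / (den n : ℚ)
  have hq : ∀ n : Fin k, ((q n : ℚ) : ℝ) = u n := by
    intro n
    rw [hu n n.2]
    simp [q]
  let cF : Fin k → F := fun i => ∑ n, WF i n * algebraMap ℚ F (q n)
  let c : ℕ → ℂ := fun i => if hi : i < k then ((cF ⟨i, hi⟩ : F) : ℂ) else 0
  have hc : ∀ i : Fin k, c i = ((cF i : F) : ℂ) := by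
    intro i
    simp only [c]
    rw [dif_pos i.2]
  have hsolve : ∀ n : Fin k, ∑ i, VF n i * cF i = algebraMap ℚ F (q n) := by
    intro n
    have h1 : VF.mulVec (WF.mulVec fun m => algebraMap ℚ F (q m)) =
        fun m => algebraMap ℚ F (q m) := by
      rw [Matrix.mulVec_mulVec, hVW, Matrix.one_mulVec]
    have h2 := congrFun h1 n
    exact h2
  refine ⟨c, ⟨h.1, h.2.1, h.2.2.1, ?_⟩, ?_, ?_, ?_⟩
  · intro n hn
    rw [Finset.sum_range]
    have h1 : ((∑ i, VF ⟨n, hn⟩ i * cF i : F) : ℂ) =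
        ((algebraMap ℚ F (q ⟨n, hn⟩) : F) : ℂ) :=
      congrArg (fun z : F => (z : ℂ)) (hsolve ⟨n, hn⟩)
    have h2 : ((algebraMap ℚ F (q ⟨n, hn⟩) : F) : ℂ) = (u n : ℂ) := by
      have h3 := hq ⟨n, hn⟩
      have h4 : ((algebraMap ℚ F (q ⟨n, hn⟩) : F) : ℂ) = ((q ⟨n, hn⟩ : ℚ) : ℂ) := by
        simp
      rw [h4]
      rw [show (u n : ℝ) = ((q ⟨n, hn⟩ : ℚ) : ℝ) from h3.symm]
      push_cast
      rfl
    rw [← h2, ← h1]
    push_cast
    apply Finset.sum_congr rfl
    intro i _
    rw [hc, hVF]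
    simp only [vmat]
    ring
  · intro i
    rw [hc]
    exact (cF i).2
  · refine ⟨d0 * ∏ m : Fin k, den m, ?_, ?_, ?_⟩
    · exact Nat.mul_pos hd0 (Finset.prod_pos fun m _ => hden m m.2)
    · have h1 : ∏ m : Fin k, den m ≤ 2 ^ (k * L) := by
        calc ∏ m : Fin k, den m ≤ ∏ _m : Fin k, 2 ^ L :=
              Finset.prod_le_prod' fun m _ => hdenL m m.2
          _ = 2 ^ (k * L) := by
              rw [Finset.prod_const, Finset.card_univ, Fintype.card_fin, ← pow_mul, mul_comm]
      have h2 : d0 ≤ 2 ^ d0 := Nat.lt_two_pow_self.le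
      calc d0 * ∏ m : Fin k, den m ≤ 2 ^ d0 * 2 ^ (k * L) := Nat.mul_le_mul h2 h1
        _ = 2 ^ (d0 + k * L) := by rw [pow_add]
        _ ≤ 2 ^ ((k + d0 + k * g0) * (L + 1)) := by
            apply Nat.pow_le_pow_right (by norm_num)
            nlinarith [Nat.zero_le (d0 * L), Nat.zero_le (k * g0 * L), Nat.zero_le (k * g0),
              Nat.zero_le k]
    · intro i
      have hint : IsIntegral ℤ (((d0 * ∏ m : Fin k, den m : ℕ) : F) * cF i) := by
        simp only [cF]
        rw [Finset.mul_sum]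
        apply IsIntegral.sum
        intro n _
        obtain ⟨e, he⟩ : den n ∣ ∏ m : Fin k, den m :=
          Finset.dvd_prod_of_mem (fun m : Fin k => den m) (Finset.mem_univ n)
        have hdn : (den n : ℚ) ≠ 0 := by
          have := hden n n.2
          positivity
        have h1 : ((∏ m : Fin k, den m : ℕ) : ℚ) * q n = (e : ℚ) * (num n : ℚ) := by
          rw [he]
          simp only [q]
          push_cast
          field_simp
        have h2 : ((∏ m : Fin k, den m : ℕ) : F) * algebraMap ℚ F (q n) =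
            (((e : ℤ) * num n : ℤ) : F) := by
          have h3 := congrArg (algebraMap ℚ F) h1
          rw [map_mul, map_mul, map_natCast, map_natCast, map_intCast] at h3
          rw [h3]
          push_cast
          rfl
        have h4 : ((d0 * ∏ m : Fin k, den m : ℕ) : F) * (WF i n * algebraMap ℚ F (q n)) =
            ((d0 : F) * WF i n) * (((e : ℤ) * num n : ℤ) : F) := by
          rw [← h2, Nat.cast_mul]
          ring
        rw [h4]
        refine (hd0i (i, n)).mul ?_
        have := isIntegral_algebraMap (R := ℤ) (A := F) (x := (e : ℤ) * num n)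
        simpa using this
      have h5 := hint.algebraMap (B := ℂ)
      rw [hc]
      have h6 : algebraMap F ℂ (((d0 * ∏ m : Fin k, den m : ℕ) : F) * cF i) =
          ((d0 * ∏ m : Fin k, den m : ℕ) : ℂ) * ((cF i : F) : ℂ) := by
        rw [map_mul, map_natCast]
        rfl
      rw [h6] at h5
      exact h5
  · intro i hi φ
    have h1 : (⟨c i, hi⟩ : F) = cF i := Subtype.ext (hc i)
    rw [h1]
    simp only [cF]
    rw [map_sum]
    have h2 : ∀ n : Fin k, ‖φ (WF i n * algebraMap ℚ F (q n))‖ ≤ g0 * 2 ^ L := by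
      intro n
      rw [map_mul, AlgHom.commutes, norm_mul]
      have h3 : ‖algebraMap ℚ ℂ (q n)‖ ≤ 2 ^ L := by
        have h4 : algebraMap ℚ ℂ (q n) = ((u n : ℝ) : ℂ) := by
          rw [← hq n]
          simp
        rw [h4, Complex.norm_real, hu n n.2, norm_div, Real.norm_natCast, Real.norm_eq_abs]
        have h5 : (1 : ℝ) ≤ den n := by
          exact_mod_cast hden n n.2
        have h6 : |(num n : ℝ)| ≤ 2 ^ L := by
          have := hnum n n.2
          rw [← Int.cast_abs, ← Nat.cast_natAbs]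
          exact_mod_cast this
        calc |(num n : ℝ)| / (den n : ℝ) ≤ |(num n : ℝ)| / 1 :=
              div_le_div_of_nonneg_left (abs_nonneg _) one_pos h5
          _ ≤ 2 ^ L := by rw [div_one]; exact h6
      exact mul_le_mul (hg0 φ i n) h3 (norm_nonneg _) (Nat.cast_nonneg _)
    calc ‖∑ n, φ (WF i n * algebraMap ℚ F (q n))‖ ≤
          ∑ n, ‖φ (WF i n * algebraMap ℚ F (q n))‖ := norm_sum_le _ _
      _ ≤ ∑ _n : Fin k, (g0 : ℝ) * 2 ^ L := Finset.sum_le_sum fun n _ => h2 n
      _ = ((k * g0 : ℕ) : ℝ) * 2 ^ L := by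
          rw [Finset.sum_const, Finset.card_univ, Fintype.card_fin, nsmul_eq_mul]
          push_cast
          ring
      _ ≤ 2 ^ (k * g0) * 2 ^ L := by
          apply mul_le_mul_of_nonneg_right _ (by positivity)
          exact_mod_cast (Nat.lt_two_pow_self (n := k * g0)).le
      _ = 2 ^ (k * g0 + L) := by rw [pow_add]
      _ ≤ 2 ^ ((k + d0 + k * g0) * (L + 1)) := by
          apply pow_le_pow_right₀ (by norm_num)
          nlinarith [Nat.zero_le (k * L), Nat.zero_le (k * g0 * L), Nat.zero_le k,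
            Nat.mul_le_mul_right L hd0]

end Pool.Agent.FixRec
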