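import Pool.Agent.FixRec.ElimSup
import Pool.Agent.FixRec.Bd

/-! The last sign change, with a polynomial exponent for a bounded number of variables. -/

set_option autoImplicit false

namespace Pool.Agent.FixRec

open Pool.Agent.MX Pool.Agent.RElim Complex

theorem elim_sup_poly (s : ℕ) : ∃ C : ℕ, ∀ (F : IntermediateField ℚ ℂ) [FiniteDimensional ℚ F]
    (_ : ∀ z ∈ F, (starRingEnd ℂ) z ∈ F) (_ : I ∈ F) (p B E Dg Hc D0 : ℕ) (_ : p ≤ s)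
    (_ : Module.finrank ℚ F ≤ Dg) (_ : 0 < D0) (_ : D0 ≤ 2 ^ Hc) (c : Fin p → Fin (E + 1) → F)
    (_ : ∀ b e, IsIntegral ℤ ((D0 : ℂ) * (c b e : ℂ)))
    (_ : ∀ b e, ∀ φ : F →ₐ[ℚ] ℂ, ‖φ (c b e)‖ ≤ 2 ^ Hc) (S : Set (Fin p → ℤ))
    (_ : ∀ g ∈ S, ∀ i, |g i| ≤ B) (ζ : (Fin p → ℤ) → F)
    (_ : ∀ g ∈ S, ∃ n : ℕ, 0 < n ∧ ζ g ^ n = 1) (X : ℝ)
    (_ : ∀ x : ℝ, X < x → ∀ z : Fin p → ℂ, (∀ i, ‖z i‖ = 1) →
      (∀ g ∈ S, ∏ i, z i ^ g i = (ζ g : ℂ)) →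
      0 ≤ (∑ b, (∑ e : Fin (E + 1), (c b e : ℂ) * (x : ℂ) ^ (e : ℕ)) * z b).re),
    ∀ x : ℝ, (2 : ℝ) ^ ((2 + B + E + Dg + Hc) ^ C) < x → ∀ z : Fin p → ℂ, (∀ i, ‖z i‖ = 1) →
      (∀ g ∈ S, ∏ i, z i ^ g i = (ζ g : ℂ)) →
      0 ≤ (∑ b, (∑ e : Fin (E + 1), (c b e : ℂ) * (x : ℂ) ^ (e : ℕ)) * z b).re := by
  obtain ⟨C, hC⟩ := bd_poly s
  refine ⟨C, ?_⟩
  intro F _ hconj hI p B E Dg Hc D0 hp hDg hD0 hD0' c hcI hcb S hS ζ hζ X hX x hx z hz hz2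
  set c' : Fin p → ℕ → F := fun i e => if h : e < E + 1 then c i ⟨e, h⟩ else 0 with hc'
  have hsum : ∀ (i : Fin p) (t : ℝ), ∑ e ∈ Finset.range (E + 1), (c' i e : ℂ) * (t : ℂ) ^ e =
      ∑ e : Fin (E + 1), (c i e : ℂ) * (t : ℂ) ^ (e : ℕ) := by
    intro i t
    rw [Finset.sum_range]
    refine Finset.sum_congr rfl fun e _ => ?_
    simp only [hc', e.2, dif_pos]
  have h := elim_sup F hconj hI p B E Dg Hc D0 hDg hD0 hD0' c' (by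
      intro i e he
      have he' : e < E + 1 := by omega
      simp only [hc', he', dif_pos]
      exact hcI i _) (by
      intro i e he φ
      have he' : e < E + 1 := by omega
      simp only [hc', he', dif_pos]
      exact hcb i _ φ) S hS ζ hζ ⟨X, fun t ht x hx hx2 => by
        simp only [hsum]
        exact hX t ht x hx hx2⟩ x (by
      refine lt_of_le_of_lt ?_ hx
      exact_mod_cast hC p B E Dg Hc hp) z hz hz2
  simp only [hsum] at h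
  exact h

end Pool.Agent.FixRec
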