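import Pool.Agent.FrozenUP.Complete
import Pool.Agent.MX.CoefB

/-!
# Positivity for a fixed recurrence: definitions

THEOREM (library `FixRec`, helper62, with helper65): one language in `∀ℝ` agrees, for every
recurrence (repeated roots allowed), with positivity and frozen positivity up to finitely many initial
values. The frozen trick: the `n`-th term of the sequence is the `n`-th term of the sequence frozen at
`n`, which is simple with the same fixed roots and coefficients of size polynomial in `n`.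
-/

set_option autoImplicit false

namespace Pool.Agent.FixRec

open Complex

/-- A finite extension of `ℚ` in `ℂ` closed under conjugation which contains `i` and the `l i`. -/
structure FD (F : IntermediateField ℚ ℂ) {k : ℕ} (l : Fin k → ℂ) : Prop where
  fin : FiniteDimensional ℚ F
  conj : ∀ z ∈ F, (starRingEnd ℂ) z ∈ F
  hI : I ∈ F
  hl : ∀ i, l i ∈ F

/-- The numbers `c i` lie in `F`, have a common denominator at most `2 ^ H`, and all their conjugates
are at most `2 ^ H`. -/
structure CB (F : IntermediateField ℚ ℂ) {k : ℕ} (c : Fin k → ℂ) (H : ℕ) : Prop where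
  mem : ∀ i, c i ∈ F
  den : ∃ D0 : ℕ, 0 < D0 ∧ D0 ≤ 2 ^ H ∧ ∀ i, IsIntegral ℤ ((D0 : ℂ) * c i)
  size : ∀ (i : Fin k) (h : c i ∈ F) (φ : F →ₐ[ℚ] ℂ), ‖φ ⟨c i, h⟩‖ ≤ 2 ^ H

/-- a relation up to torsion -/
def IsRel {p : ℕ} (ν : Fin p → ℂ) (g : Fin p → ℤ) : Prop :=
  ∃ n : ℕ, 0 < n ∧ (∏ i, ν i ^ g i) ^ n = 1

/-- the points of the torus satisfying all relations of `ν` up to torsion -/
def Tor0 {p : ℕ} (ν : Fin p → ℂ) : Set (Fin p → ℂ) :=
  {w | (∀ i, ‖w i‖ = 1) ∧ ∀ g : Fin p → ℤ, IsRel ν g → ∏ i, w i ^ g i = 1}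

/-- PROOF: `F = IntermediateField.adjoin ℚ S`, `S` = `{I}`, the `l i` and their conjugates (see the
proof of `mg_field` in `MX/Margin.lean`, or `up_of_frozen` in `FrozenUP/SubUP.lean`; `F` is closed under
conjugation because the generators are: `IntermediateField.adjoin_le_iff` for the image). -/
theorem exists_FD {k : ℕ} (l : Fin k → ℂ) (hal : ∀ i, IsIntegral ℚ (l i)) :
    ∃ F : IntermediateField ℚ ℂ, FD F l := by
  obtain ⟨S, hS⟩ : ∃ S : Set ℂ, S = Set.range l ∪ Set.range (fun i => (starRingEnd ℂ) (l i)) ∪ {I} :=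
    ⟨_, rfl⟩
  have hfin : S.Finite := by
    rw [hS]
    exact ((Set.finite_range _).union (Set.finite_range _)).union (Set.finite_singleton _)
  have h1 : ∀ i, l i ∈ S := fun i => by
    rw [hS]
    exact Or.inl (Or.inl ⟨i, rfl⟩)
  have h2 : ∀ i, (starRingEnd ℂ) (l i) ∈ S := fun i => by
    rw [hS]
    exact Or.inl (Or.inr ⟨i, rfl⟩)
  have h3 : I ∈ S := by
    rw [hS]
    exact Or.inr rfl
  have hmem : ∀ z ∈ S, (∃ i, z = l i) ∨ (∃ i, z = (starRingEnd ℂ) (l i)) ∨ z = I := by
    intro z hz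
    rw [hS] at hz
    rcases hz with (⟨i, h⟩ | ⟨i, h⟩) | h
    · exact Or.inl ⟨i, h.symm⟩
    · exact Or.inr (Or.inl ⟨i, h.symm⟩)
    · exact Or.inr (Or.inr h)
  have hint : ∀ z ∈ S, IsIntegral ℚ z := by
    intro z hz
    rcases hmem z hz with ⟨i, rfl⟩ | ⟨i, rfl⟩ | rfl
    · exact hal i
    · exact (hal i).map (starRingEnd ℂ).toRatAlgHom
    · exact ⟨Polynomial.X ^ 2 + 1, by monicity!, by simp⟩
  refine ⟨IntermediateField.adjoin ℚ S, ⟨?_, ?_, ?_, ?_⟩⟩
  · have : Finite S := hfin
    exact IntermediateField.finiteDimensional_adjoin hint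
  · have hle : IntermediateField.adjoin ℚ S ≤
        (IntermediateField.adjoin ℚ S).comap (starRingEnd ℂ).toRatAlgHom := by
      rw [IntermediateField.adjoin_le_iff]
      intro z hz
      change (starRingEnd ℂ) z ∈ IntermediateField.adjoin ℚ S
      rcases hmem z hz with ⟨i, rfl⟩ | ⟨i, rfl⟩ | rfl
      · exact IntermediateField.subset_adjoin _ _ (h2 i)
      · rw [Complex.conj_conj]
        exact IntermediateField.subset_adjoin _ _ (h1 i)
      · rw [Complex.conj_I]
        exact neg_mem (IntermediateField.subset_adjoin _ _ h3)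
    exact fun z hz => hle hz
  · exact IntermediateField.subset_adjoin _ _ h3
  · exact fun i => IntermediateField.subset_adjoin _ _ (h1 i)

theorem CB.mono {F : IntermediateField ℚ ℂ} {k : ℕ} {c : Fin k → ℂ} {H H' : ℕ} (h : CB F c H)
    (hH : H ≤ H') : CB F c H' := by
  obtain ⟨h1, ⟨D0, h2, h3, h4⟩, h5⟩ := h
  exact ⟨h1, ⟨D0, h2, h3.trans (Nat.pow_le_pow_right (by norm_num) hH), h4⟩, fun i h φ =>
    (h5 i h φ).trans (pow_le_pow_right₀ (by norm_num) hH)⟩

end Pool.Agent.FixRec
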