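import Pool.Agent.FixRec.UpFix
import Pool.Agent.FixRec.PosFix
import Pool.Agent.FixRec.Coef
import Pool.Agent.FrozenUP.Final

/-! The two thresholds for the instances with fixed coefficients. -/

set_option autoImplicit false

namespace Pool.Agent.UltPos

open Pool.Agent.PT Pool.Agent.AllR Pool.Agent.DD7719.M Pool.Agent.DD7719 Finset Pool.Agent.FrUP
open Pool.Agent.FixRec

/-- Thresholds for frozen positivity and positivity, linear in the length of the code for fixed coefficients.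
PROOF: `k = a.length`; if `k = 0` there is no instance. Otherwise `exists_rootData k (fun t => a.getD t 0) 0` gives root data
`l, c0, ex` with algebraic `l i`; `F` from `exists_FD`; `κ1` from `exists_coef`, `κ2` from `frozen_up_fixed`, `κ3` from `pos_fixed`. For
`I` with `List.ofFn I.a = a` one has `I.k = k` and `I.aQ t = a.getD t 0` (`rootData_congr`), `uQ t = uNum t / uDen t` with sizes
`≤ 2 ^ L`, `L = I.enc.length` (last clause of `exists_parser`), so `exists_coef` gives `c` with `CB F c (κ1 (L + 1))`. `I.all'` gives the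
formula for the terms, `Inst.frozenPositive_iff` the hypothesis of `frozen_up_fixed` (see `FrozenUP/Final.lean`), and
`Inst.root_conj` the conjugates. For `n > 2 ^ (κ (L + 1))` the sequence frozen at `n` is ultimately positive, so `pos_fixed`
applies (`κ3 (κ1 (L + 1) + 1) ≤ 2 ^ (κ (L + 1))`). -/
theorem fixed_data (a : List ℚ) : ∃ κ : ℕ, ∀ I : Inst, List.ofFn I.a = a → I.FrozenPositive →
    (∃ (l c : ℕ → ℂ) (ex : ℕ → ℕ), RootData I.k (fun t => ((I.aQ t : ℚ) : ℝ))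
        (fun t => ((I.uQ t : ℚ) : ℝ)) l c ex ∧
      ∀ x : ℚ, (2 : ℝ) ^ (κ * (I.enc.length + 1)) < x → ∃ N : ℕ, ∀ n, N ≤ n →
        0 < (fs (fun i : Fin I.k => l i) (fun i => c i) (fun i => ex i) (x : ℝ) n).re) ∧
    ∀ v : ℕ → ℚ, I.IsSeq v → ∀ n : ℕ, 2 ^ (κ * (I.enc.length + 1)) < n → 0 < v n := by
  classical
  by_cases hex0 : ∃ I : Inst, List.ofFn I.a = a
  swap
  · exact ⟨0, fun I hI => absurd ⟨I, hI⟩ hex0⟩
  obtain ⟨k, hk⟩ : ∃ k, k = a.length := ⟨_, rfl⟩
  obtain ⟨l, c0, ex, hrd0, hl, -⟩ := exists_rootData k (fun t => a.getD t 0) (fun _ => 0)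
  obtain ⟨F, hF⟩ := exists_FD (fun i : Fin k => l i) (fun i => hl i)
  obtain ⟨κ1, h1⟩ := exists_coef k _ _ l c0 ex hrd0 F hF
  have key : ∀ I : Inst, List.ofFn I.a = a → I.k = k ∧ ∃ c : ℕ → ℂ,
      RootData k (fun t => ((I.aQ t : ℚ) : ℝ)) (fun t => ((I.uQ t : ℚ) : ℝ)) l c ex ∧
      CB F (fun i : Fin k => c i) (κ1 * (I.enc.length + 1)) := by
    intro I hI
    have hIk : k = I.k := by rw [hk, ← hI, List.length_ofFn]
    subst hIk
    obtain ⟨_, _, _, _, -, -, -, -, hpar⟩ := exists_parser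
    have hb := (hpar I).2.2.2.2.2.2
    refine ⟨rfl, ?_⟩
    obtain ⟨c, hc, hcb⟩ := h1 I.enc.length (fun t => if h : t < I.k then I.uNum ⟨t, h⟩ else 0)
      (fun t => if h : t < I.k then I.uDen ⟨t, h⟩ else 1)
      (fun t ht => by
        simp only [ht, dif_pos]
        exact I.uDen_pos _)
      (fun t ht => by
        simp only [ht, dif_pos]
        exact (hb ⟨t, ht⟩).2.2.1.le)
      (fun t ht => by
        simp only [ht, dif_pos]
        exact (hb ⟨t, ht⟩).2.2.2.le)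
      (fun t => ((I.uQ t : ℚ) : ℝ))
      (fun t ht => by
        simp only [Inst.uQ, ht, dif_pos, Inst.u]
        push_cast
        rfl)
    refine ⟨c, Pool.Agent.UltPos.rootData_congr (fun t ht => ?_) (fun t _ => rfl) hc, hcb⟩
    simp only [Inst.aQ, ht, dif_pos]
    have h4 : a.getD t 0 = I.a ⟨t, ht⟩ := by
      subst hI
      rw [List.getD_eq_getElem _ _ (by rw [List.length_ofFn]; exact ht), List.getElem_ofFn]
    rw [h4]
  obtain ⟨I0, hI0⟩ := hex0
  obtain ⟨hk0, c1, hc1, -⟩ := key I0 hI0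
  have hkpos : 0 < k := hk0 ▸ I0.kpos
  have hconj : ∀ i : Fin k, ∃ i' : Fin k, l i' = (starRingEnd ℂ) (l i) := by
    subst hk0
    exact I0.root_conj hc1
  obtain ⟨κ2, h2⟩ := frozen_up_fixed (fun i : Fin k => l i) (fun i => ex i) hkpos
    (fun i => hrd0.1 i i.2) (fun i => hl i) F hF
  obtain ⟨κ3, h3⟩ := pos_fixed (fun i : Fin k => l i) (fun i => ex i) hkpos
    (fun i => hrd0.1 i i.2) (fun i => hl i) hconj F hF
  refine ⟨(κ2 + κ3) * (κ1 + 1), fun I hI hfp => ?_⟩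
  obtain ⟨hIk, c, hc, hcb⟩ := key I hI
  subst hIk
  have ha : ∀ t (h : t < I.k), ((fun t => ((I.aQ t : ℚ) : ℝ)) t) = (I.a ⟨t, h⟩ : ℝ) := by
    intro t h
    simp only [Inst.aQ, h, dif_pos]
  have hu : ∀ t (h : t < I.k), ((fun t => ((I.uQ t : ℚ) : ℝ)) t) = (I.u ⟨t, h⟩ : ℝ) := by
    intro t h
    simp only [Inst.uQ, h, dif_pos]
  have hpart : ∀ v : ℕ → ℚ, I.IsSeq v →
      ∀ x : ℚ, (2 : ℝ) ^ ((κ2 + κ3) * (κ1 + 1) * (I.enc.length + 1)) < x → ∃ N : ℕ, ∀ n, N ≤ n →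
        0 < (fs (fun i : Fin I.k => l i) (fun i => c i) (fun i => ex i) (x : ℝ) n).re := by
    intro v hv x hx
    have hall := I.all' _ _ ha hu v hv hc
    have h5 := (I.frozenPositive_iff v hv _ _ _ (fun i => hc.1 i i.2) hall).1 hfp
    obtain ⟨τ, hτ⟩ := h5
    refine h2 (fun i => c i) (κ1 * (I.enc.length + 1)) hcb (fun n => ((v n : ℚ) : ℝ)) hall
      ⟨τ, fun y hy => hτ y (by exact_mod_cast hy)⟩ x (lt_of_le_of_lt ?_ hx)
    refine pow_le_pow_right₀ (by norm_num) ?_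
    nlinarith [Nat.zero_le (κ2 * I.enc.length), Nat.zero_le (κ3 * (κ1 + 1) * (I.enc.length + 1))]
  obtain ⟨v0, hv0, -⟩ := I.exists_unique_seq
  refine ⟨⟨l, c, ex, hc, hpart v0 hv0⟩, fun v hv n hn => ?_⟩
  have hall := I.all' _ _ ha hu v hv hc
  have h6 := h3 (fun i => c i) (κ1 * (I.enc.length + 1)) hcb (fun n => ((v n : ℚ) : ℝ)) hall n ?_ ?_
  · exact_mod_cast h6
  · have h7 : κ3 * (κ1 * (I.enc.length + 1) + 1) ≤ (κ2 + κ3) * (κ1 + 1) * (I.enc.length + 1) := by
      nlinarith [Nat.zero_le (κ3 * I.enc.length), Nat.zero_le (κ2 * (κ1 + 1) * (I.enc.length + 1))]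
    exact h7.trans (Nat.lt_two_pow_self.le.trans hn.le)
  · have h8 := hpart v hv (n : ℚ) (by exact_mod_cast hn)
    push_cast at h8
    exact h8

end Pool.Agent.UltPos
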