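import Pool.Agent.FixRec.Pw

/-! Sizes of the coefficients of the level functions. -/

set_option autoImplicit false

namespace Pool.Agent.FixRec

open Complex Pool.Agent.DD7719.M Pool.Agent.FrUP

/-- the rational coefficient of `bcP e` -/
private noncomputable def lcQ (e t : ℕ) : ℚ :=
  ((e.factorial : ℚ)⁻¹) * (((descPochhammer ℤ e).coeff t : ℤ) : ℚ)

private theorem lcQ_eq (e t : ℕ) : (bcP e).coeff t = ((lcQ e t : ℚ) : ℂ) := by
  unfold bcP lcQ
  rw [Polynomial.coeff_C_mul, ← descPochhammer_map (Int.castRingHom ℂ), Polynomial.coeff_map]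
  push_cast
  simp

private theorem lc_natDegree (e : ℕ) : (bcP e).natDegree ≤ e := by
  unfold bcP
  refine (Polynomial.natDegree_C_mul_le _ _).trans ?_
  rw [descPochhammer_natDegree]

private theorem lcQ_zero (e t : ℕ) (h : e < t) : lcQ e t = 0 := by
  have h1 : (bcP e).coeff t = 0 :=
    Polynomial.coeff_eq_zero_of_natDegree_lt ((lc_natDegree e).trans_lt h)
  rw [lcQ_eq] at h1
  exact_mod_cast h1

private theorem lcQ_int (k e t : ℕ) (h : e < k) :
    IsIntegral ℤ (((k.factorial : ℕ) : ℂ) * ((lcQ e t : ℚ) : ℂ)) := by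
  obtain ⟨r, hr⟩ := Nat.factorial_dvd_factorial h.le
  have h1 : ((k.factorial : ℕ) : ℂ) * ((lcQ e t : ℚ) : ℂ) =
      algebraMap ℤ ℂ ((r : ℤ) * (descPochhammer ℤ e).coeff t) := by
    have hf : ((e.factorial : ℕ) : ℂ) ≠ 0 := by
      exact_mod_cast e.factorial_ne_zero
    rw [hr]
    unfold lcQ
    push_cast
    field_simp
    rfl
  rw [h1]
  exact isIntegral_algebraMap

open scoped Classical in
/-- The coefficients of the powers of `x` in the level function.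
PROOF: `(bcP e).coeff t` is rational (see `bcP_coeff_integral` in `FrozenUP/GapSeven.lean`), with denominator
`e !` and absolute value at most some number (finitely many `e < k`, `t ≤ k`; zero for `t > k`, `bcP_natDegree`);
combine with `CB_pw`. -/
theorem exists_levCoef {k : ℕ} (l : Fin k → ℂ) (ex : Fin k → ℕ) (hex : ∀ i, ex i < k)
    (F : IntermediateField ℚ ℂ) (hF : FD F l) (J : ℕ) :
    ∃ m : ℕ, ∀ (c : Fin k → ℂ) (H : ℕ), CB F c H → ∀ j ≤ J, ∀ ρ : ℝ,
      ∃ (cc : Fin k → ℕ → F) (D0 : ℕ), 0 < D0 ∧ D0 ≤ 2 ^ (H + m) ∧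
        (∀ i e, (cc i e : ℂ) =
          if ‖l i‖ = ρ then c i * (bcP (ex i)).coeff e * l i ^ (j - ex i) else 0) ∧
        (∀ i e, IsIntegral ℤ ((D0 : ℂ) * (cc i e : ℂ))) ∧
        ∀ i e, ∀ φ : F →ₐ[ℚ] ℂ, ‖φ (cc i e)‖ ≤ 2 ^ (H + m) := by
  obtain ⟨m1, hm1⟩ := CB_pw l ex F hF J
  set Q : ℝ := ∑ i : Fin k, ∑ t ∈ Finset.range (k + 1), |((lcQ (ex i) t : ℚ) : ℝ)| with hQ
  have hQb : ∀ (i : Fin k) (t : ℕ), |((lcQ (ex i) t : ℚ) : ℝ)| ≤ Q := by
    intro i t
    have h2 : (∑ t ∈ Finset.range (k + 1), |((lcQ (ex i) t : ℚ) : ℝ)|) ≤ Q :=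
      Finset.single_le_sum
        (f := fun i : Fin k => ∑ t ∈ Finset.range (k + 1), |((lcQ (ex i) t : ℚ) : ℝ)|)
        (fun _ _ => Finset.sum_nonneg fun _ _ => abs_nonneg _) (Finset.mem_univ i)
    rcases lt_or_ge (ex i) t with h | h
    · rw [lcQ_zero _ _ h]
      simp only [Rat.cast_zero, abs_zero]
      exact Finset.sum_nonneg fun _ _ => Finset.sum_nonneg fun _ _ => abs_nonneg _
    · have h3 : |((lcQ (ex i) t : ℚ) : ℝ)| ≤
          ∑ t ∈ Finset.range (k + 1), |((lcQ (ex i) t : ℚ) : ℝ)| :=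
        Finset.single_le_sum (f := fun t => |((lcQ (ex i) t : ℚ) : ℝ)|)
          (fun _ _ => abs_nonneg _) (Finset.mem_range.mpr (by have := hex i; omega))
      exact h3.trans h2
  obtain ⟨m2, hm2⟩ := pow_unbounded_of_one_lt Q (one_lt_two : (1 : ℝ) < 2)
  obtain ⟨m3, hm3⟩ := pow_unbounded_of_one_lt (k.factorial : ℝ) (one_lt_two : (1 : ℝ) < 2)
  refine ⟨m1 + m2 + m3, fun c H hc j hj ρ => ?_⟩
  obtain ⟨hmem, ⟨D0, hD0, hD0H, hD0i⟩, hsize⟩ := hm1 c H hc j hj
  refine ⟨fun i e => if ‖l i‖ = ρ then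
    (⟨c i * l i ^ (j - ex i), hmem i⟩ : F) * algebraMap ℚ F (lcQ (ex i) e) else 0,
    D0 * k.factorial, ?_, ?_, ?_, ?_, ?_⟩
  · exact Nat.mul_pos hD0 k.factorial_pos
  · have h1 : k.factorial ≤ 2 ^ m3 := by exact_mod_cast hm3.le
    calc D0 * k.factorial ≤ 2 ^ (H + m1) * 2 ^ m3 := Nat.mul_le_mul hD0H h1
      _ = 2 ^ (H + m1 + m3) := (pow_add _ _ _).symm
      _ ≤ 2 ^ (H + (m1 + m2 + m3)) := Nat.pow_le_pow_right (by norm_num) (by omega)
  · intro i e
    by_cases h : ‖l i‖ = ρ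
    · simp only [if_pos h]
      rw [lcQ_eq]
      push_cast
      have h1 : ((algebraMap ℚ F (lcQ (ex i) e) : F) : ℂ) = ((lcQ (ex i) e : ℚ) : ℂ) := by
        simp
      rw [h1]
      ring
    · simp only [if_neg h]
      simp
  · intro i e
    by_cases h : ‖l i‖ = ρ
    · simp only [if_pos h]
      have h1 : (((D0 * k.factorial : ℕ)) : ℂ) *
          (((⟨c i * l i ^ (j - ex i), hmem i⟩ : F) * algebraMap ℚ F (lcQ (ex i) e) : F) : ℂ) =
          ((D0 : ℂ) * (c i * l i ^ (j - ex i))) *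
            (((k.factorial : ℕ) : ℂ) * ((lcQ (ex i) e : ℚ) : ℂ)) := by
        have h1 : ((algebraMap ℚ F (lcQ (ex i) e) : F) : ℂ) = ((lcQ (ex i) e : ℚ) : ℂ) := by
          simp
        push_cast
        rw [h1]
        ring
      rw [h1]
      exact (hD0i i).mul (lcQ_int k _ _ (hex i))
    · simp only [if_neg h]
      simp only [ZeroMemClass.coe_zero, mul_zero]
      exact isIntegral_zero
  · intro i e φ
    by_cases h : ‖l i‖ = ρ
    · simp only [if_pos h]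
      rw [map_mul, norm_mul]
      have h1 : φ (algebraMap ℚ F (lcQ (ex i) e)) = ((lcQ (ex i) e : ℚ) : ℂ) := by
        rw [AlgHom.commutes]
        simp
      rw [h1]
      have h2 : ‖((lcQ (ex i) e : ℚ) : ℂ)‖ ≤ 2 ^ m2 := by
        have h3 : ‖((lcQ (ex i) e : ℚ) : ℂ)‖ = |((lcQ (ex i) e : ℚ) : ℝ)| := by
          rw [← Complex.ofReal_ratCast, Complex.norm_real, Real.norm_eq_abs]
        rw [h3]
        exact (hQb i e).trans hm2.le
      calc ‖φ ⟨c i * l i ^ (j - ex i), hmem i⟩‖ * ‖((lcQ (ex i) e : ℚ) : ℂ)‖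
          ≤ 2 ^ (H + m1) * 2 ^ m2 :=
            mul_le_mul (hsize i (hmem i) φ) h2 (norm_nonneg _) (by positivity)
        _ = 2 ^ (H + m1 + m2) := (pow_add _ _ _).symm
        _ ≤ 2 ^ (H + (m1 + m2 + m3)) := pow_le_pow_right₀ (by norm_num) (by omega)
    · simp only [if_neg h]
      rw [map_zero, norm_zero]
      positivity

/-- PROOF: `eval_eq_sum_range'` for `bcP e` (degree `≤ e < k + 1`, `bcP_natDegree`),
`bcP_eval_real`. -/
theorem bc_sum (k e : ℕ) (he : e < k) (x : ℝ) :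
    ∑ t ∈ Finset.range (k + 1), (bcP e).coeff t * (x : ℂ) ^ t = ((bc e x : ℝ) : ℂ) := by
  rw [← bcP_eval_real, Polynomial.eval_eq_sum_range'
    (((lc_natDegree e).trans_lt he).trans (Nat.lt_succ_self k))]

end Pool.Agent.FixRec
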