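import Pool.Agent.FixRec.Fld

/-! Sizes of the products of the coefficients with powers of the roots. -/

set_option autoImplicit false

namespace Pool.Agent.FixRec

open Complex Pool.Agent.DD7719.M Pool.Agent.FrUP

/-- A complex number algebraic over `ℚ` has a positive denominator. -/
private theorem pw_den1 (x : ℂ) (hx : IsAlgebraic ℚ x) :
    ∃ e : ℕ, 0 < e ∧ IsIntegral ℤ ((e : ℂ) * x) := by
  have h2 : IsAlgebraic ℤ x := (IsFractionRing.isAlgebraic_iff ℤ ℚ ℂ).mpr hx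
  obtain ⟨y, hy, hy'⟩ := h2.exists_integral_multiple
  refine ⟨y.natAbs, Int.natAbs_pos.mpr hy, ?_⟩
  have h4 : IsIntegral ℤ ((y : ℂ) * x) := by simpa [zsmul_eq_mul] using hy'
  rcases Int.natAbs_eq y with h5 | h5
  · have h6 : ((y.natAbs : ℕ) : ℂ) = (y : ℂ) := by
      conv_rhs => rw [h5]
      simp
    rw [h6]; exact h4
  · have h6 : ((y.natAbs : ℕ) : ℂ) = -(y : ℂ) := by
      conv_rhs => rw [h5]
      simp
    rw [h6, neg_mul]; exact h4.neg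

/-- A common positive denominator. -/
private theorem pw_den {k : ℕ} (l : Fin k → ℂ) (hal : ∀ i, IsAlgebraic ℚ (l i)) :
    ∃ d : ℕ, 0 < d ∧ ∀ i, IsIntegral ℤ ((d : ℂ) * l i) := by
  classical
  choose e he hei using fun i => pw_den1 (l i) (hal i)
  refine ⟨∏ J, e J, Finset.prod_pos fun J _ => he J, fun J => ?_⟩
  rw [← Finset.mul_prod_erase _ _ (Finset.mem_univ J)]
  have h7 : (((e J * ∏ x ∈ Finset.univ.erase J, e x : ℕ)) : ℂ) * l J =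
      ((∏ x ∈ Finset.univ.erase J, e x : ℕ) : ℂ) * ((e J : ℂ) * l J) := by
    push_cast; ring
  rw [h7]
  refine IsIntegral.mul ?_ (hei J)
  have := isIntegral_algebraMap (R := ℤ) (A := ℂ)
    (x := ((∏ x ∈ Finset.univ.erase J, e x : ℕ) : ℤ))
  simpa using this

/-- `d ^ J * x ^ e` is integral when `d * x` is and `e ≤ J`. -/
private theorem pw_int (x : ℂ) (d : ℕ) (h : IsIntegral ℤ ((d : ℂ) * x)) {e J : ℕ} (he : e ≤ J) :
    IsIntegral ℤ ((d : ℂ) ^ J * x ^ e) := by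
  have h1 : (d : ℂ) ^ J * x ^ e = (d : ℂ) ^ (J - e) * ((d : ℂ) * x) ^ e := by
    rw [mul_pow, ← mul_assoc, ← pow_add, Nat.sub_add_cancel he]
  rw [h1]
  refine IsIntegral.mul (IsIntegral.pow ?_ _) (h.pow _)
  have := isIntegral_algebraMap (R := ℤ) (A := ℂ) (x := (d : ℤ))
  simpa using this

/-- PROOF: let `d > 0` be a common denominator of the `l i` (`exists_denominator` in
`DD7719/SubSpace.lean`, or directly from `IsIntegral ℚ`), `G` a bound for all conjugates of all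
`l i ^ e`, `e ≤ J` (finitely many). Take `D0' = D0 * d ^ J`, `2 ^ m ≥ d ^ J, G`. -/
theorem CB_pw {k : ℕ} (l : Fin k → ℂ) (ex : Fin k → ℕ)
    (F : IntermediateField ℚ ℂ) (hF : FD F l) (J : ℕ) :
    ∃ m : ℕ, ∀ (c : Fin k → ℂ) (H : ℕ), CB F c H → ∀ j ≤ J,
      CB F (fun i => c i * l i ^ (j - ex i)) (H + m) := by
  classical
  have := hF.fin
  have hal : ∀ i, IsAlgebraic ℚ (l i) := fun i => by
    have h1 : IsAlgebraic ℚ (⟨l i, hF.hl i⟩ : F) := Algebra.IsAlgebraic.isAlgebraic _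
    exact (isAlgebraic_algebraMap_iff (A := ℂ) (FaithfulSMul.algebraMap_injective F ℂ)).mpr h1
  obtain ⟨d, hd, hdi⟩ := pw_den l hal
  have : Finite (F →ₐ[ℚ] ℂ) := inferInstance
  have := Fintype.ofFinite (F →ₐ[ℚ] ℂ)
  set G : ℝ := ∑ φ : (F →ₐ[ℚ] ℂ), ∑ i, ∑ e ∈ Finset.range (J + 1),
    ‖φ (⟨l i, hF.hl i⟩ : F)‖ ^ e with hG
  have hGb : ∀ (φ : F →ₐ[ℚ] ℂ) (i : Fin k) (e : ℕ), e ≤ J →
      ‖φ (⟨l i, hF.hl i⟩ : F)‖ ^ e ≤ G := by
    intro φ i e he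
    have h3 : ‖φ (⟨l i, hF.hl i⟩ : F)‖ ^ e ≤
        ∑ e ∈ Finset.range (J + 1), ‖φ (⟨l i, hF.hl i⟩ : F)‖ ^ e :=
      Finset.single_le_sum (f := fun e => ‖φ (⟨l i, hF.hl i⟩ : F)‖ ^ e)
        (fun _ _ => by positivity) (Finset.mem_range.mpr (by omega))
    have h2 : (∑ e ∈ Finset.range (J + 1), ‖φ (⟨l i, hF.hl i⟩ : F)‖ ^ e) ≤
        ∑ i, ∑ e ∈ Finset.range (J + 1), ‖φ (⟨l i, hF.hl i⟩ : F)‖ ^ e :=
      Finset.single_le_sum
        (f := fun i => ∑ e ∈ Finset.range (J + 1), ‖φ (⟨l i, hF.hl i⟩ : F)‖ ^ e)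
        (fun _ _ => by positivity) (Finset.mem_univ i)
    have h1 : (∑ i, ∑ e ∈ Finset.range (J + 1), ‖φ (⟨l i, hF.hl i⟩ : F)‖ ^ e) ≤ G :=
      Finset.single_le_sum
        (f := fun φ : (F →ₐ[ℚ] ℂ) => ∑ i, ∑ e ∈ Finset.range (J + 1),
          ‖φ (⟨l i, hF.hl i⟩ : F)‖ ^ e)
        (fun _ _ => by positivity) (Finset.mem_univ φ)
    exact h3.trans (h2.trans h1)
  obtain ⟨m1, hm1⟩ := pow_unbounded_of_one_lt G (one_lt_two : (1 : ℝ) < 2)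
  obtain ⟨m2, hm2⟩ := pow_unbounded_of_one_lt (((d ^ J : ℕ)) : ℝ) (one_lt_two : (1 : ℝ) < 2)
  refine ⟨m1 + m2, fun c H hc j hj => ?_⟩
  obtain ⟨hmem, ⟨D0, hD0, hD0H, hD0i⟩, hsize⟩ := hc
  refine ⟨fun i => mul_mem (hmem i) (pow_mem (hF.hl i) _), ⟨D0 * d ^ J, ?_, ?_, ?_⟩, ?_⟩
  · positivity
  · have h1 : d ^ J ≤ 2 ^ m2 := by
      have : ((d ^ J : ℕ) : ℝ) ≤ ((2 ^ m2 : ℕ) : ℝ) := by
        push_cast; push_cast at hm2; exact hm2.le
      exact_mod_cast this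
    calc D0 * d ^ J ≤ 2 ^ H * 2 ^ m2 := Nat.mul_le_mul hD0H h1
      _ = 2 ^ (H + m2) := by rw [pow_add]
      _ ≤ 2 ^ (H + (m1 + m2)) := Nat.pow_le_pow_right (by norm_num) (by omega)
  · intro i
    have h1 : (((D0 * d ^ J : ℕ)) : ℂ) * (c i * l i ^ (j - ex i)) =
        ((D0 : ℂ) * c i) * ((d : ℂ) ^ J * l i ^ (j - ex i)) := by
      push_cast; ring
    show IsIntegral ℤ ((((D0 * d ^ J : ℕ)) : ℂ) * (c i * l i ^ (j - ex i)))
    rw [h1]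
    exact (hD0i i).mul (pw_int _ d (hdi i) (by omega))
  · intro i h φ
    have h1 : (⟨c i * l i ^ (j - ex i), h⟩ : F) =
        ⟨c i, hmem i⟩ * (⟨l i, hF.hl i⟩ : F) ^ (j - ex i) := by
      apply Subtype.ext
      simp
    show ‖φ (⟨c i * l i ^ (j - ex i), h⟩ : F)‖ ≤ 2 ^ (H + (m1 + m2))
    rw [h1, map_mul, map_pow, norm_mul, norm_pow]
    calc ‖φ ⟨c i, hmem i⟩‖ * ‖φ (⟨l i, hF.hl i⟩ : F)‖ ^ (j - ex i)
        ≤ 2 ^ H * 2 ^ m1 :=
          mul_le_mul (hsize i (hmem i) φ) ((hGb φ i _ (by omega)).trans hm1.le)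
            (by positivity) (by positivity)
      _ = 2 ^ (H + m1) := by rw [pow_add]
      _ ≤ 2 ^ (H + (m1 + m2)) := pow_le_pow_right₀ (by norm_num) (by omega)

end Pool.Agent.FixRec
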