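import Pool.Agent.FrozenUP.Lang
import Pool.Agent.FrozenUP.Final
import Pool.Agent.DD7719.MLang

/-! Complements of existential real conditions. -/

set_option autoImplicit false

namespace Pool.Agent.UltPos

open Pool.Agent.PT Pool.Agent.AllR Pool.Agent.DD7719.M Pool.Agent.DD7719 Finset Pool.Agent.FrUP

/-- `L` is the complement of an existential real condition -/
def IsRE (L : Set (List ISym)) : Prop :=
  ∃ R : List ISym → (ℕ → ℕ) → (ℕ → ℝ) → Prop, RE R ∧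
    ∀ x, x ∈ L ↔ ¬ ∃ α : ℕ → ℝ, R x (fun _ => 0) α

/-- PROOF: `RE.inForallR`. -/
theorem IsRE.inForallR {L : Set (List ISym)} (h : IsRE L) : InForallR L := by
  obtain ⟨R, hR, hL⟩ := h
  exact RE.inForallR hR L hL

/-- PROOF: `RE.or`. -/
theorem IsRE.inter {L L' : Set (List ISym)} (h : IsRE L) (h' : IsRE L') : IsRE (L ∩ L') := by
  obtain ⟨R, hR, hL⟩ := h
  obtain ⟨R', hR', hL'⟩ := h'
  refine ⟨_, hR.or hR', fun x => ?_⟩
  rw [Set.mem_inter_iff, hL x, hL' x]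
  constructor
  · rintro ⟨h1, h2⟩ ⟨α, h3 | h3⟩
    · exact h1 ⟨α, h3⟩
    · exact h2 ⟨α, h3⟩
  · intro h3
    exact ⟨fun ⟨α, h4⟩ => h3 ⟨α, Or.inl h4⟩, fun ⟨α, h4⟩ => h3 ⟨α, Or.inr h4⟩⟩

/-- PROOF: copy `inForallR_frozen` (`FrozenUP/Lang.lean`), whose last step is `RE.inForallR`. -/
theorem isRE_frozen : IsRE {w : List ISym | ∃ I : Inst, w = I.enc ∧ I.FrozenPositive} := by
  obtain ⟨kk, sg, nb, db, hkk, hsg, hnb, hdb, hI⟩ := exists_parser
  have h2 : RF (Γ := ISym) (fun _ _ _ => (2 : ℝ)) :=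
    (RF.nat (UF.const 2)).congr fun _ _ _ => by norm_num
  have hε : RF (Γ := ISym) (fun x _ _ => (2 : ℝ) / ((2 ^ pq x.length : ℕ) : ℝ)) :=
    (h2.div (h2.pow (uf_pq UF.len))).congr fun x e α => by push_cast; rfl
  have hδ : RF (Γ := ISym) (fun x _ _ => (1 : ℝ) / 2 ^ pdl x.length) :=
    RF.one.div (h2.pow (uf_pdl UF.len))
  have hfa : ∀ (I : Inst) (t : ℕ) (ht : t < I.k), fieldR sg nb db 0 I.enc t = (I.a ⟨t, ht⟩ : ℝ) := by
    intro I t ht
    obtain ⟨e1, e2, e3, e4, e5, e6, e7⟩ := hI I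
    rw [Inst.a, fieldR]
    push_cast
    have h3 := congrArg (fun z : ℤ => (z : ℝ)) (e3 ⟨t, ht⟩)
    have h4 := congrArg (fun z : ℤ => (z : ℝ)) (e4 ⟨t, ht⟩)
    simp only at h3 h4
    push_cast at h3 h4
    rw [h3, h4]
  have hfu : ∀ (I : Inst) (t : ℕ) (ht : t < I.k), fieldR sg nb db 1 I.enc t = (I.u ⟨t, ht⟩ : ℝ) := by
    intro I t ht
    obtain ⟨e1, e2, e3, e4, e5, e6, e7⟩ := hI I
    rw [Inst.u, fieldR]
    push_cast
    have h3 := congrArg (fun z : ℤ => (z : ℝ)) (e5 ⟨t, ht⟩)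
    have h4 := congrArg (fun z : ℤ => (z : ℝ)) (e6 ⟨t, ht⟩)
    simp only at h3 h4
    push_cast at h3 h4
    rw [h3, h4]
  have hX := re_certQ (fun x α => QX (kk x) (α 0)) kk
    (fun x => pbm x.length) (fun x => pbn x.length)
    (fieldR sg nb db 0) (fieldR sg nb db 1) _ _ hkk (uf_pbm UF.len) (uf_pbn UF.len)
    (rf_fieldR 0 hsg hnb hdb) (rf_fieldR 1 hsg hnb hdb) hε hδ (fun x α => qX_congr (kk x) (α 0))
    (re_QX kk (fun x => pbm x.length) (fun x => pbn x.length) hkk (uf_pbm UF.len)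
      (uf_pbn UF.len))
  obtain ⟨P1, hP1, hB1⟩ := RElim.exists_bound
    (R := fun x t => ∃ (l c : ℕ → ℂ) (ex : ℕ → ℕ), RootData (kk x) (fieldR sg nb db 0 x)
      (fieldR sg nb db 1 x) l c ex ∧ CertQN (kk x) l c ex (pbm x.length) (pbn x.length)
        (2 / ((2 ^ pq x.length : ℕ) : ℝ)) (1 / 2 ^ pdl x.length) (QX (kk x) t)) hX
  have hbig : RE (Γ := ISym) (fun x _ α => ∃ β : ℕ → ℝ, (2 : ℝ) ^ 2 ^ P1 x < β 0 ∧
      ∃ (l c : ℕ → ℂ) (ex : ℕ → ℕ), RootData (kk x) (fieldR sg nb db 0 x)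
      (fieldR sg nb db 1 x) l c ex ∧ CertQN (kk x) l c ex (pbm x.length) (pbn x.length)
        (2 / ((2 ^ pq x.length : ℕ) : ℝ)) (1 / 2 ^ pdl x.length) (QX (kk x) (β 0))) := by
    refine RE.exb (RE.and ?_ (RE.aff hX 2 1))
    exact RE.lt (RF.pow_two_pow h2 hP1) (RF.var (UF.const 1))
  refine ⟨_, (RE.up up_valid.not).or hbig, fun x => ?_⟩
  constructor
  · rintro ⟨I, rfl, hfr⟩ ⟨α, h4 | h4⟩
    · exact h4 ⟨I, rfl⟩
    · obtain ⟨e1, e2, e3, e4, e5, e6, e7⟩ := hI I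
      obtain ⟨v, hv, -⟩ := I.exists_unique_seq
      obtain ⟨β, hβ, h5⟩ := h4
      obtain ⟨X, hX⟩ := I.bounded_FX I.enc.length e2 (fun i => ⟨(e7 i).1.le, (e7 i).2.1.le⟩) _ _
        (hfa I) (hfu I) v hv hfr
      obtain ⟨t', ht', h6⟩ := hB1 I.enc ⟨β 0, hβ, h5⟩ X
      simp only [e1] at h6
      exact absurd (hX t' h6) (not_le.mpr ht')
  · intro h
    have h1 : ∃ I : Inst, x = I.enc := by
      by_contra hcon
      exact h ⟨fun _ => 0, Or.inl hcon⟩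
    obtain ⟨I, rfl⟩ := h1
    obtain ⟨e1, e2, e3, e4, e5, e6, e7⟩ := hI I
    obtain ⟨v, hv, -⟩ := I.exists_unique_seq
    refine ⟨I, rfl, I.frozenPositive_of_no I.enc.length e2
      (fun i => ⟨(e7 i).1.le, (e7 i).2.1.le⟩) _ _ (hfa I) (hfu I) v hv (2 ^ 2 ^ P1 I.enc)
      (fun t ht hcon => h ⟨fun _ => 0, Or.inr ⟨fun _ => t, ht, ?_⟩⟩)⟩
    simp only [e1]
    exact hcon

/-- PROOF: `re_ne_list` and `up_valid`; see `hlist` in `inForallR_fixed` (`DD7719/MLang.lean`). -/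
theorem isRE_list (a : List ℚ) : IsRE {w : List ISym | ∃ I : Inst, w = I.enc ∧ List.ofFn I.a = a} := by
  obtain ⟨kk, sg, nb, db, hkk, hsg, hnb, hdb, hI⟩ := exists_parser
  have hne := re_ne_list kk (fieldR sg nb db 0) hkk (rf_fieldR 0 hsg hnb hdb) a
  refine ⟨_, (RE.up up_valid.not).or hne, fun x => ?_⟩
  have hfa : ∀ (I : Inst) (t : ℕ) (ht : t < I.k), fieldR sg nb db 0 I.enc t = (I.a ⟨t, ht⟩ : ℝ) := by
    intro I t ht
    obtain ⟨e1, e2, e3, e4, e5, e6, e7⟩ := hI I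
    rw [Inst.a, fieldR]
    push_cast
    have h3 := congrArg (fun z : ℤ => (z : ℝ)) (e3 ⟨t, ht⟩)
    have h4 := congrArg (fun z : ℤ => (z : ℝ)) (e4 ⟨t, ht⟩)
    simp only at h3 h4
    push_cast at h3 h4
    rw [h3, h4]
  have hlist : ∀ I : Inst, List.ofFn I.a = a ↔ ¬ (kk I.enc ≠ a.length ∨ ∃ t, t < a.length ∧
      fieldR sg nb db 0 I.enc t ≠ ((a.getD t 0 : ℚ) : ℝ)) := by
    intro I
    rw [(hI I).1]
    push Not
    constructor
    · rintro rfl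
      refine ⟨by simp, fun t ht => ?_⟩
      rw [List.length_ofFn] at ht
      rw [hfa I t ht]
      simp [List.getD_eq_getElem?_getD, ht]
    · rintro ⟨h1, h2⟩
      apply List.ext_getElem
      · simp [h1]
      · intro t ht ht'
        have h3 := h2 t ht'
        rw [List.length_ofFn] at ht
        rw [hfa I t ht] at h3
        rw [List.getElem_ofFn]
        have h4 : I.a ⟨t, ht⟩ = a.getD t 0 := by exact_mod_cast h3
        rw [h4]
        simp [List.getD_eq_getElem?_getD, ht']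
  constructor
  · rintro ⟨I, rfl, h1⟩ ⟨α, h4 | h4⟩
    · exact h4 ⟨I, rfl⟩
    · exact (hlist I).mp h1 h4
  · intro h
    have h1 : ∃ I : Inst, x = I.enc := by
      by_contra hcon
      exact h ⟨fun _ => 0, Or.inl hcon⟩
    obtain ⟨I, rfl⟩ := h1
    exact ⟨I, rfl, (hlist I).mpr fun h4 => h ⟨fun _ => 0, Or.inr h4⟩⟩

/-- PROOF: `re_small` and `up_valid`; see `hsmall` in `inForallR_narrow_and` (`DD7719/NLang.lean`).
-/
theorem isRE_small (b : List ISym → ℕ) (hb : UF (fun x _ => b x)) :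
    IsRE {w : List ISym | ∃ I : Inst, w = I.enc ∧ ∀ v, I.IsSeq v → ∀ n, n < 2 ^ b w → 0 < v n} := by
  obtain ⟨kk, sg, nb, db, hkk, hsg, hnb, hdb, hI⟩ := exists_parser
  have hfa : ∀ (I : Inst) (t : ℕ) (ht : t < I.k), fieldR sg nb db 0 I.enc t = (I.a ⟨t, ht⟩ : ℝ) := by
    intro I t ht
    obtain ⟨e1, e2, e3, e4, e5, e6, e7⟩ := hI I
    rw [Inst.a, fieldR]
    push_cast
    have h3 := congrArg (fun z : ℤ => (z : ℝ)) (e3 ⟨t, ht⟩)
    have h4 := congrArg (fun z : ℤ => (z : ℝ)) (e4 ⟨t, ht⟩)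
    simp only at h3 h4
    push_cast at h3 h4
    rw [h3, h4]
  have hfu : ∀ (I : Inst) (t : ℕ) (ht : t < I.k), fieldR sg nb db 1 I.enc t = (I.u ⟨t, ht⟩ : ℝ) := by
    intro I t ht
    obtain ⟨e1, e2, e3, e4, e5, e6, e7⟩ := hI I
    rw [Inst.u, fieldR]
    push_cast
    have h3 := congrArg (fun z : ℤ => (z : ℝ)) (e5 ⟨t, ht⟩)
    have h4 := congrArg (fun z : ℤ => (z : ℝ)) (e6 ⟨t, ht⟩)
    simp only at h3 h4
    push_cast at h3 h4
    rw [h3, h4]
  have hsmall := re_small kk b (fieldR sg nb db 0)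
    (fieldR sg nb db 1) hkk hb (rf_fieldR 0 hsg hnb hdb) (rf_fieldR 1 hsg hnb hdb)
  refine ⟨_, (RE.up up_valid.not).or hsmall, fun x => ?_⟩
  constructor
  · rintro ⟨I, rfl, hpos⟩ ⟨α, h4 | h4⟩
    · exact h4 ⟨I, rfl⟩
    · obtain ⟨v, hv, -⟩ := I.exists_unique_seq
      obtain ⟨l, c, ex, hrd, n, hn, hle⟩ := h4
      have hIk := (hI I).1
      rw [hIk] at hrd hle
      have h5 := I.all' _ _ (hfa I) (hfu I) v hv hrd n
      rw [← Finset.sum_range (fun i => c i * (n.choose (ex i) : ℂ) * l i ^ (n - ex i))] at h5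
      rw [termN, h5, Complex.ofReal_re] at hle
      have h6 : 0 < ((v n : ℚ) : ℝ) := by exact_mod_cast hpos v hv n hn
      linarith
  · intro h
    have h1 : ∃ I : Inst, x = I.enc := by
      by_contra hcon
      exact h ⟨fun _ => 0, Or.inl hcon⟩
    obtain ⟨I, rfl⟩ := h1
    refine ⟨I, rfl, fun v hv n hn => ?_⟩
    by_contra hcon
    push Not at hcon
    apply h
    refine ⟨fun _ => 0, Or.inr ?_⟩
    obtain ⟨l, c, ex, hrd⟩ := I.exists_rootData' _ _ (hfa I) (hfu I)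
    refine ⟨l, c, ex, ?_, n, hn, ?_⟩
    · rw [(hI I).1]
      exact hrd
    · have h6 := I.all' _ _ (hfa I) (hfu I) v hv hrd n
      rw [← Finset.sum_range (fun i => c i * (n.choose (ex i) : ℂ) * l i ^ (n - ex i))] at h6
      rw [(hI I).1, termN, h6, Complex.ofReal_re]
      exact_mod_cast hcon

end Pool.Agent.UltPos
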