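import Pool.Agent.FixRec.Fld

/-! Polynomials with coefficients in a number field have no large roots. -/

set_option autoImplicit false

namespace Pool.Agent.FixRec

open Complex

private theorem liou_Root (F : IntermediateField ℚ ℂ) [FiniteDimensional ℚ F] (x : F)
    (hx : IsIntegral ℤ (x : ℂ)) (hx0 : x ≠ 0) (B : ℝ) (hB : 1 ≤ B)
    (h : ∀ φ : F →ₐ[ℚ] ℂ, ‖φ x‖ ≤ B) : 1 ≤ ‖(x : ℂ)‖ * B ^ Module.finrank ℚ F := by
  classical
  have hint : IsIntegral ℤ x := by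
    have h1 : IsIntegral ℤ (F.val x) := hx
    exact (isIntegral_algHom_iff (F.val.restrictScalars ℤ) F.val.injective).1 h1
  have hN : IsIntegral ℤ (Algebra.norm ℚ x) := Algebra.isIntegral_norm ℚ hint
  obtain ⟨n, hn⟩ := IsIntegrallyClosed.isIntegral_iff.1 hN
  have hN0 : Algebra.norm ℚ x ≠ 0 := Algebra.norm_ne_zero_iff.2 hx0
  have hn0 : n ≠ 0 := by
    rintro rfl
    apply hN0
    rw [← hn, map_zero]
  have h1 : (1 : ℝ) ≤ ‖algebraMap ℚ ℂ (Algebra.norm ℚ x)‖ := by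
    rw [← hn]
    have : algebraMap ℚ ℂ (algebraMap ℤ ℚ n) = ((n : ℝ) : ℂ) := by simp
    rw [this, Complex.norm_real, Real.norm_eq_abs]
    exact_mod_cast Int.one_le_abs hn0
  rw [Algebra.norm_eq_prod_embeddings ℚ ℂ, norm_prod,
    ← Finset.mul_prod_erase Finset.univ (fun φ : F →ₐ[ℚ] ℂ => ‖φ x‖)
      (Finset.mem_univ F.val)] at h1
  have h2 : ∏ φ ∈ Finset.univ.erase F.val, ‖φ x‖ ≤ B ^ Module.finrank ℚ F := by
    calc ∏ φ ∈ Finset.univ.erase F.val, ‖φ x‖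
        ≤ ∏ _φ ∈ Finset.univ.erase F.val, B :=
          Finset.prod_le_prod (fun _ _ => norm_nonneg _) fun φ _ => h φ
      _ = B ^ (Module.finrank ℚ F - 1) := by
          rw [Finset.prod_const, Finset.card_erase_of_mem (Finset.mem_univ _), Finset.card_univ,
            AlgHom.card]
      _ ≤ B ^ Module.finrank ℚ F := pow_le_pow_right₀ hB (by omega)
  exact h1.trans (mul_le_mul_of_nonneg_left h2 (norm_nonneg _))

/-- A nonzero polynomial over `F` with bounded coefficients has no large real root.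
PROOF: the leading coefficient `a` is not zero, `D0 * a` is an algebraic integer in `F` all of whose
conjugates are at most `4 ^ H`, so `|D0 * a| ≥ 4 ^ (-H (Dg - 1))`, `Dg = finrank` (the norm, a product over
all embeddings, is a nonzero integer; see `one_le_mul_NR` in `MX/House.lean` or `Algebra.norm_eq_prod_embeddings`),
and the other coefficients are at most `2 ^ H` in absolute value (`F.val`). If `x ≥ 2 ^ (κ (H + 1))` is a
root: `|a| x ^ n ≤ n 2 ^ H x ^ (n - 1)`. -/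
theorem poly_root_bound (F : IntermediateField ℚ ℂ) [FiniteDimensional ℚ F] (n : ℕ) :
    ∃ κ : ℕ, ∀ (H D0 : ℕ) (P : Polynomial ℂ), P.natDegree ≤ n → 0 < D0 → D0 ≤ 2 ^ H →
      (∀ e, P.coeff e ∈ F) → (∀ e, IsIntegral ℤ ((D0 : ℂ) * P.coeff e)) →
      (∀ e (h : P.coeff e ∈ F) (φ : F →ₐ[ℚ] ℂ), ‖φ ⟨P.coeff e, h⟩‖ ≤ 2 ^ H) →
      ∀ x : ℝ, (2 : ℝ) ^ (κ * (H + 1)) ≤ x → P.eval (x : ℂ) = 0 → P = 0 := by
  refine ⟨2 * Module.finrank ℚ F + 2 + n, fun H D0 P hn hD hDH hmem hint hsize x hx hroot => ?_⟩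
  by_contra hP
  generalize hDg : Module.finrank ℚ F = Dg at hx
  have hx1 : (1 : ℝ) ≤ x := le_trans (one_le_pow₀ (by norm_num)) hx
  have hx0 : (0 : ℝ) < x := by linarith
  -- the leading coefficient
  have ha : P.coeff P.natDegree ≠ 0 := by
    rw [Polynomial.coeff_natDegree]
    exact Polynomial.leadingCoeff_ne_zero.2 hP
  have hcoef : ∀ e, ‖P.coeff e‖ ≤ 2 ^ H := fun e => hsize e (hmem e) F.val
  have hL : 1 ≤ ((D0 : ℝ) * ‖P.coeff P.natDegree‖) * ((4 : ℝ) ^ H) ^ Dg := by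
    have h1 := liou_Root F ((D0 : F) * ⟨P.coeff P.natDegree, hmem _⟩)
      (by
        have h2 := hint P.natDegree
        have h3 : (((D0 : F) * ⟨P.coeff P.natDegree, hmem _⟩ : F) : ℂ)
            = (D0 : ℂ) * P.coeff P.natDegree := by
          simp
        rw [h3]
        exact h2)
      (by
        intro h
        have h3 : (((D0 : F) * ⟨P.coeff P.natDegree, hmem _⟩ : F) : ℂ) = ((0 : F) : ℂ) :=
          congrArg Subtype.val h
        have h4 : (D0 : ℂ) * P.coeff P.natDegree = 0 := by simpa using h3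
        rcases mul_eq_zero.1 h4 with h5 | h5
        · exact hD.ne' (by exact_mod_cast h5)
        · exact ha h5)
      ((4 : ℝ) ^ H) (one_le_pow₀ (by norm_num))
      (by
        intro φ
        rw [map_mul, map_natCast, norm_mul, Complex.norm_natCast]
        have h2 : (D0 : ℝ) ≤ 2 ^ H := by exact_mod_cast hDH
        calc (D0 : ℝ) * ‖φ ⟨P.coeff P.natDegree, hmem _⟩‖ ≤ 2 ^ H * 2 ^ H :=
              mul_le_mul h2 (hsize _ _ φ) (norm_nonneg _) (by positivity)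
          _ = 4 ^ H := by
              rw [← mul_pow]
              norm_num)
    have h3 : (((D0 : F) * ⟨P.coeff P.natDegree, hmem _⟩ : F) : ℂ)
        = (D0 : ℂ) * P.coeff P.natDegree := by
      simp
    rw [h3, norm_mul, Complex.norm_natCast, hDg] at h1
    exact h1
  -- the degree is positive
  have hN : P.natDegree ≠ 0 := by
    intro h
    have h1 := Polynomial.eq_C_of_natDegree_eq_zero h
    rw [h1, Polynomial.eval_C] at hroot
    rw [h] at ha
    exact ha hroot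
  obtain ⟨m, hm⟩ := Nat.exists_eq_succ_of_ne_zero hN
  -- the inequality
  have hsum : P.coeff (m + 1) * (x : ℂ) ^ (m + 1)
      = -∑ e ∈ Finset.range (m + 1), P.coeff e * (x : ℂ) ^ e := by
    rw [Polynomial.eval_eq_sum_range, hm, Finset.sum_range_succ] at hroot
    rw [eq_neg_iff_add_eq_zero, add_comm]
    exact hroot
  have hnx : ‖(x : ℂ)‖ = x := by
    rw [Complex.norm_real, Real.norm_eq_abs, abs_of_pos hx0]
  have hle : ‖P.coeff (m + 1)‖ * x ^ (m + 1) ≤ ((m + 1 : ℕ) : ℝ) * (2 ^ H * x ^ m) := by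
    calc ‖P.coeff (m + 1)‖ * x ^ (m + 1) = ‖P.coeff (m + 1) * (x : ℂ) ^ (m + 1)‖ := by
          rw [norm_mul, norm_pow, hnx]
      _ = ‖∑ e ∈ Finset.range (m + 1), P.coeff e * (x : ℂ) ^ e‖ := by
          rw [hsum, norm_neg]
      _ ≤ ∑ e ∈ Finset.range (m + 1), ‖P.coeff e * (x : ℂ) ^ e‖ := norm_sum_le _ _
      _ ≤ ∑ _e ∈ Finset.range (m + 1), (2 ^ H * x ^ m) := by
          refine Finset.sum_le_sum fun e he => ?_
          rw [norm_mul, norm_pow, hnx]
          have h1 : e ≤ m := Nat.lt_succ_iff.1 (Finset.mem_range.1 he)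
          exact mul_le_mul (hcoef e) (pow_le_pow_right₀ hx1 h1) (by positivity) (by positivity)
      _ = ((m + 1 : ℕ) : ℝ) * (2 ^ H * x ^ m) := by
          rw [Finset.sum_const, Finset.card_range, nsmul_eq_mul]
  have hle2 : ‖P.coeff (m + 1)‖ * x ≤ ((m + 1 : ℕ) : ℝ) * 2 ^ H := by
    have h1 : (‖P.coeff (m + 1)‖ * x) * x ^ m ≤ (((m + 1 : ℕ) : ℝ) * 2 ^ H) * x ^ m := by
      calc (‖P.coeff (m + 1)‖ * x) * x ^ m = ‖P.coeff (m + 1)‖ * x ^ (m + 1) := by ring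
        _ ≤ ((m + 1 : ℕ) : ℝ) * (2 ^ H * x ^ m) := hle
        _ = (((m + 1 : ℕ) : ℝ) * 2 ^ H) * x ^ m := by ring
    exact le_of_mul_le_mul_right h1 (pow_pos hx0 m)
  rw [hm] at hL
  have hmn : ((m + 1 : ℕ) : ℝ) < 2 ^ n := by
    have h1 : m + 1 ≤ n := by
      have : P.natDegree = m + 1 := hm
      omega
    have h2 : m + 1 < 2 ^ n := lt_of_le_of_lt h1 Nat.lt_two_pow_self
    exact_mod_cast h2
  have hD2 : (D0 : ℝ) ≤ 2 ^ H := by exact_mod_cast hDH
  have h5 : x ≤ (2 ^ H * (((4 : ℝ) ^ H) ^ Dg)) * (((m + 1 : ℕ) : ℝ) * 2 ^ H) := by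
    calc x = 1 * x := by ring
      _ ≤ (((D0 : ℝ) * ‖P.coeff (m + 1)‖) * ((4 : ℝ) ^ H) ^ Dg) * x :=
          mul_le_mul_of_nonneg_right hL hx0.le
      _ = ((D0 : ℝ) * ((4 : ℝ) ^ H) ^ Dg) * (‖P.coeff (m + 1)‖ * x) := by ring
      _ ≤ (2 ^ H * (((4 : ℝ) ^ H) ^ Dg)) * (((m + 1 : ℕ) : ℝ) * 2 ^ H) := by
          refine mul_le_mul (mul_le_mul_of_nonneg_right hD2 (by positivity)) hle2
            (mul_nonneg (norm_nonneg _) hx0.le) (by positivity)
  have h6 : (2 ^ H * (((4 : ℝ) ^ H) ^ Dg)) * (((m + 1 : ℕ) : ℝ) * 2 ^ H)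
      < (2 ^ H * (((4 : ℝ) ^ H) ^ Dg)) * (2 ^ n * 2 ^ H) :=
    mul_lt_mul_of_pos_left (mul_lt_mul_of_pos_right hmn (by positivity)) (by positivity)
  have h7 : (2 ^ H * (((4 : ℝ) ^ H) ^ Dg)) * (2 ^ n * 2 ^ H)
      = 2 ^ (H * (2 * Dg + 2) + n) := by
    have h8 : (4 : ℝ) = 2 ^ 2 := by norm_num
    rw [h8, ← pow_mul, ← pow_mul, ← pow_add, ← pow_add, ← pow_add]
    congr 1
    ring
  have h8 : (2 : ℝ) ^ (H * (2 * Dg + 2) + n) ≤ 2 ^ ((2 * Dg + 2 + n) * (H + 1)) := by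
    refine pow_le_pow_right₀ (by norm_num) ?_
    nlinarith [Nat.zero_le (n * H), Nat.zero_le Dg]
  rw [h7] at h6
  linarith

end Pool.Agent.FixRec
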