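import Pool.Agent.FixRec.Root
import Pool.Agent.FixRec.LevCoef
import Pool.Agent.FrozenUP.GapSeven

/-! The polynomials of the expansion have no large roots. -/

set_option autoImplicit false

namespace Pool.Agent.FixRec

open Complex Pool.Agent.DD7719.M Pool.Agent.FrUP

/-- PROOF: `poly_root_bound` (degree `≤ k`, `bcP_natDegree`) for `gP ... (l i ^ n0)`, whose
coefficients are sums of at most `k` of the numbers
`c t * (bcP (ex t)).coeff e * l t ^ (j - ex t)`, `l t ^ n0 = l i ^ n0` (`gP`, `coeff_C_mul`; all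
these `t` have `‖l t‖ = ‖l i‖`, `norm_eq_of_pow_eq`), so `exists_levCoef` with `ρ = ‖l i‖` gives
membership, denominators and sizes (at most `k * 2 ^ (H + m) ≤ 2 ^ (H + m + k)`). -/
theorem gP_root_bound {k : ℕ} (l : Fin k → ℂ) (ex : Fin k → ℕ) (hex : ∀ i, ex i < k)
    (F : IntermediateField ℚ ℂ) (hF : FD F l) (n0 J : ℕ) (hn0 : 0 < n0) :
    ∃ κ : ℕ, ∀ (c : Fin k → ℂ) (H : ℕ), CB F c H → ∀ j ≤ J, ∀ i : Fin k, ∀ x : ℝ,
      (2 : ℝ) ^ (κ * (H + 1)) ≤ x → (gP l c ex n0 j (l i ^ n0)).eval (x : ℂ) = 0 →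
      gP l c ex n0 j (l i ^ n0) = 0 := by
  classical
  have := hF.fin
  obtain ⟨m, hm⟩ := exists_levCoef l ex hex F hF J
  obtain ⟨κ0, hκ0⟩ := poly_root_bound F k
  refine ⟨κ0 * (m + k + 1), fun c H hc j hj i x hx h0 => ?_⟩
  obtain ⟨cc, D0, hD0, hD1, hcc, hint, hsz⟩ := hm c H hc j hj ‖l i‖
  have hcoef : ∀ e, (gP l c ex n0 j (l i ^ n0)).coeff e =
      ∑ t with l t ^ n0 = l i ^ n0, (cc t e : ℂ) := by
    intro e
    rw [gP, Polynomial.finsetSum_coeff]
    refine Finset.sum_congr rfl fun t ht => ?_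
    rw [Finset.mem_filter] at ht
    rw [Polynomial.coeff_C_mul, hcc, if_pos (GS.norm_eq_of_pow_eq hn0 ht.2)]
    ring
  have hcoef' : ∀ e (h : (gP l c ex n0 j (l i ^ n0)).coeff e ∈ F),
      (⟨_, h⟩ : F) = ∑ t with l t ^ n0 = l i ^ n0, cc t e := by
    intro e h
    apply Subtype.ext
    rw [AddSubmonoidClass.coe_finsetSum]
    exact hcoef e
  refine hκ0 (H + m + k) D0 _ ?_ hD0 ?_ ?_ ?_ ?_ x ?_ h0
  · rw [gP]
    refine Polynomial.natDegree_sum_le_of_forall_le _ _ fun t _ => ?_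
    refine (Polynomial.natDegree_C_mul_le _ _).trans ?_
    exact (bcP_natDegree _).trans (hex t).le
  · exact hD1.trans (Nat.pow_le_pow_right (by norm_num) (by omega))
  · intro e
    rw [hcoef]
    exact sum_mem fun t _ => (cc t e).2
  · intro e
    rw [hcoef, Finset.mul_sum]
    exact IsIntegral.sum _ fun t _ => hint t e
  · intro e h φ
    rw [hcoef' e h, map_sum]
    refine (norm_sum_le _ _).trans ?_
    refine (Finset.sum_le_sum fun t _ => hsz t e φ).trans ?_
    rw [Finset.sum_const, nsmul_eq_mul, pow_add (2 : ℝ) (H + m) k, mul_comm]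
    refine mul_le_mul_of_nonneg_left ?_ (by positivity)
    have h1 : (Finset.univ.filter fun t => l t ^ n0 = l i ^ n0).card ≤ k := by
      refine (Finset.card_le_univ _).trans ?_
      simp
    have h2 : (k : ℝ) ≤ 2 ^ k := by
      exact_mod_cast (Nat.lt_two_pow_self (n := k)).le
    exact (Nat.cast_le.2 h1).trans h2
  · refine le_trans (pow_le_pow_right₀ (by norm_num) ?_) hx
    have : H + m + k + 1 ≤ (m + k + 1) * (H + 1) := by nlinarith
    calc κ0 * (H + m + k + 1) ≤ κ0 * ((m + k + 1) * (H + 1)) := Nat.mul_le_mul_left _ this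
      _ = κ0 * (m + k + 1) * (H + 1) := by ring

end Pool.Agent.FixRec
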