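import Pool.Agent.FixRec.ElimSup
import Pool.Agent.FixRec.Bd
import Pool.Agent.FixRec.Tor
import Pool.Agent.FixRec.RootG
import Pool.Agent.FixRec.Lim
import Pool.Agent.FixRec.Rep

/-! The frozen sequences are ultimately positive from an explicit parameter on. -/

set_option autoImplicit false

namespace Pool.Agent.FixRec

open Complex Pool.Agent.DD7719 Pool.Agent.DD7719.M Pool.Agent.DD7719.M.GS Pool.Agent.FrUP

/-- PROOF: `exists_rep`: `n0`, `A`, `s`, `y`; `ν i = nz (l i) ^ n0`, `B` from `exists_rel_bound ν`; `J = k + n0`; `κ1` from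
`gP_root_bound`, `m` from `exists_levCoef`, `κ2` from `bd_lin k B k (finrank ℚ F)`; `κ` with
`κ (H + 1) ≥ κ1 (H + 1), κ2 (H + m + 1)`. Let `x > 2 ^ (κ (H + 1))` be rational. Use `up_at` (`FrozenUP/Complete.lean`) with
`fs_real` (`fc_integral`; the `c i` are algebraic because they lie in `F`). For the class `j`, `ClsOK`:
`Rep` from above. If the sum over `l i ≠ 0` vanishes for all `m` then (`van_of_frozen`, `gP_root_bound`) all the `gP` are zero and
`fs l c ex x' (j + n0 m) = 0` for all `x'`, which contradicts the hypothesis for a large rational `x'`. Level `ρ`: the `gP`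
above `ρ` are zero (`van_of_frozen`), so `nonneg_of_frozen` gives nonnegativity for all real `t > τ` and `w ∈ Tor0 ν`. Apply
`elim_sup` with `p = k`, `E = k`, `c = cc` (`exists_levCoef`), `Hc = H + m`, `S = {g | (∀ i, |g i| ≤ B) ∧ IsRel ν g}`, `ζ = 1`, `t = x`,
point `w i = Wt A s z i`, which is in `Tor0 ν`; a point `w` on the torus satisfying the relations of `S` is in `Tor0 ν`
(`exists_rel_bound`); `∑ e, cc i e * t ^ e = if ‖l i‖ = ρ then c i * bc (ex i) t * l i ^ (j - ex i) else 0` (`bc_sum`), and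
`fc l c ex x i * l i ^ j = c i * bc (ex i) x * l i ^ (j - ex i)` for `‖l i‖ = ρ > 0` (`fc_mul_pow`). -/
theorem frozen_up_fixed {k : ℕ} (l : Fin k → ℂ) (ex : Fin k → ℕ) (hk : 0 < k) (hex : ∀ i, ex i < k)
    (hal : ∀ i, IsIntegral ℚ (l i)) (F : IntermediateField ℚ ℂ) (hF : FD F l) :
    ∃ κ : ℕ, ∀ (c : Fin k → ℂ) (H : ℕ), CB F c H → ∀ v : ℕ → ℝ,
      (∀ n, ∑ i, c i * (n.choose (ex i) : ℂ) * l i ^ (n - ex i) = (v n : ℂ)) →
      (∃ τ : ℝ, ∀ x : ℚ, τ ≤ x → ∃ N, ∀ n, N ≤ n → 0 < (fs l c ex (x : ℝ) n).re) →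
      ∀ x : ℚ, (2 : ℝ) ^ (κ * (H + 1)) < x → ∃ N, ∀ n, N ≤ n → 0 < (fs l c ex (x : ℝ) n).re := by
  classical
  have := hF.fin
  obtain ⟨n0, hn0, htor, A, s, y, hrep, hWt⟩ := exists_rep l hk
  obtain ⟨B, hB⟩ := exists_rel_bound (fun i => nz (l i) ^ n0)
    (fun i => by simp only [norm_pow, norm_nz, one_pow])
  obtain ⟨κ1, hκ1⟩ := gP_root_bound l ex hex F hF n0 (k + n0) hn0
  obtain ⟨m, hm⟩ := exists_levCoef l ex hex F hF (k + n0)
  obtain ⟨κ2, hκ2⟩ := bd_lin k B k (Module.finrank ℚ F)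
  refine ⟨κ1 + κ2 * (m + 1), fun c H hc v hv hup x hx => ?_⟩
  have hx1 : (2 : ℝ) ^ (κ1 * (H + 1)) ≤ (x : ℝ) := by
    refine le_trans (pow_le_pow_right₀ (by norm_num) ?_) hx.le
    exact Nat.mul_le_mul_right _ (Nat.le_add_right _ _)
  have hx2 : (2 : ℝ) ^ (κ2 * (H + m + 1)) < (x : ℝ) := by
    refine lt_of_le_of_lt (pow_le_pow_right₀ (by norm_num) ?_) hx
    calc κ2 * (H + m + 1) ≤ κ2 * ((m + 1) * (H + 1)) := by
          apply Nat.mul_le_mul_left
          nlinarith [Nat.zero_le (m * H)]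
      _ = κ2 * (m + 1) * (H + 1) := (mul_assoc _ _ _).symm
      _ ≤ (κ1 + κ2 * (m + 1)) * (H + 1) := Nat.mul_le_mul_right _ (Nat.le_add_left _ _)
  have hac : ∀ i, IsIntegral ℚ (c i) := by
    intro i
    have h1 : IsIntegral ℚ (⟨c i, hc.mem i⟩ : F) := Algebra.IsIntegral.isIntegral _
    exact h1.map F.val
  obtain ⟨τ, hτ⟩ := hup
  refine up_at l c ex hk (x : ℝ) n0 hn0 (fun i => fc_integral l c ex hac hal x i) hal htor
    (fun n => (fs l c ex x n).re) (fun n => fs_real l c ex hk hex v hv x n) ?_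
  intro j hj hj'
  have hexj : ∀ i, ex i ≤ j := fun i => ((hex i).le.trans hj)
  have hroot : ∀ i : Fin k, (gP l c ex n0 j (l i ^ n0)).eval ((x : ℝ) : ℂ) = 0 →
      gP l c ex n0 j (l i ^ n0) = 0 := fun i => hκ1 c H hc j (by omega) i x hx1
  refine ⟨A, s, y, hrep, fun hvan => ?_, fun ρ hρ hvan z hz => ?_⟩
  · have hg := van_of_frozen l c ex n0 j hexj x hroot (fun i => l i ≠ 0) (by
      intro i i' h h'
      rw [← norm_ne_zero_iff] at h' ⊢
      rwa [← norm_eq_of_pow_eq hn0 h]) (fun i h => h) hvan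
    obtain ⟨x', hx'⟩ := exists_rat_gt τ
    obtain ⟨N, hN⟩ := hτ x' hx'.le
    have h1 : fs l c ex (x' : ℝ) (j + n0 * N) = 0 := by
      have h2 := sum_eq_zero_of_gP' l c ex n0 j (fun i => l i ≠ 0) (by
        intro i i' h h'
        rw [← norm_ne_zero_iff] at h' ⊢
        rwa [← norm_eq_of_pow_eq hn0 h]) hg ((x' : ℝ) : ℂ) (fun X => X ^ N)
      refine Eq.trans (Finset.sum_congr rfl fun i _ => ?_) h2
      split_ifs with h
      · rw [pow_add, ← mul_assoc, fc_mul_pow l c ex x' j i (hexj i) h, bcP_eval_real, pow_mul]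
      · push Not at h
        rw [fc, if_pos h, zero_mul]
    have h3 := hN (j + n0 * N) (by nlinarith [Nat.zero_le j])
    rw [h1, Complex.zero_re] at h3
    exact absurd h3 (lt_irrefl _)
  · have hg := van_of_frozen l c ex n0 j hexj x hroot (fun i => ρ < ‖l i‖) (by
      intro i i' h h'
      rwa [← norm_eq_of_pow_eq hn0 h]) (fun i h => norm_pos_iff.mp (hρ.trans h)) hvan
    obtain ⟨cc, D0, hD0, hD0', hcc, hccI, hccb⟩ := hm c H hc j (by omega) ρ
    have hlev : ∀ (t : ℝ) (i : Fin k), ∑ e ∈ Finset.range (k + 1), (cc i e : ℂ) * (t : ℂ) ^ e =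
        if ‖l i‖ = ρ then c i * ((bc (ex i) t : ℝ) : ℂ) * l i ^ (j - ex i) else 0 := by
      intro t i
      split_ifs with h
      · rw [← bc_sum k (ex i) (hex i) t, Finset.mul_sum, Finset.sum_mul]
        refine Finset.sum_congr rfl fun e _ => ?_
        rw [hcc, if_pos h]
        ring
      · apply Finset.sum_eq_zero
        intro e _
        rw [hcc, if_neg h, zero_mul]
    have hsum : ∀ (t : ℝ) (w : Fin k → ℂ), (∑ i, (∑ e ∈ Finset.range (k + 1),
        (cc i e : ℂ) * (t : ℂ) ^ e) * w i) =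
        ∑ i, (if ‖l i‖ = ρ then c i * ((bc (ex i) t : ℝ) : ℂ) * l i ^ (j - ex i) * w i
          else 0) := by
      intro t w
      refine Finset.sum_congr rfl fun i _ => ?_
      rw [hlev]
      split_ifs
      · rfl
      · rw [zero_mul]
    have hmain := elim_sup F hF.conj hF.hI k B k (Module.finrank ℚ F) (H + m) D0 le_rfl hD0
      hD0' cc (fun i e _ => hccI i e) (fun i e _ => hccb i e)
      {g | (∀ i, |g i| ≤ B) ∧ IsRel (fun i => nz (l i) ^ n0) g} (fun g hg => hg.1)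
      (fun _ => 1) (fun _ _ => ⟨1, one_pos, one_pow _⟩) ⟨τ, fun t ht w hw hw2 => by
        rw [hsum]
        refine nonneg_of_frozen l c ex hex n0 j hn0 hj τ hτ ρ hρ hg t ht w
          (hB w hw fun g hg1 hg2 => ?_)
        have := hw2 g ⟨hg1, hg2⟩
        rw [this]
        rfl⟩ x (by
        refine lt_of_le_of_lt ?_ hx2
        exact_mod_cast hκ2 (H + m)) (fun i => Wt A s z i) (fun i => norm_Wt A s z hz i)
      (fun g hg => by
        rw [(hWt z hz).2 g hg.2]
        rfl)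
    rw [hsum] at hmain
    refine hmain.trans_eq ?_
    congr 1
    refine Finset.sum_congr rfl fun i _ => ?_
    split_ifs with h
    · rw [fc_mul_pow l c ex x j i (hexj i) (norm_pos_iff.mp (by rw [h]; exact hρ))]
    · rfl

end Pool.Agent.FixRec
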